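import Pool.Agent.Zk42.US.Loc

/-! The polynomials `F (x ^ D)` at the places where the constant coefficient dominates. -/

set_option autoImplicit false

namespace Pool.Agent.Zk42.US

open Finset Polynomial
open Pool.Agent.Zk42.UC (PP Per NM common_period common_pp per_inj per_NM not_pp_of_incr v_zeta
  v_sub_le v_zeta_one v_zeta_sub mem_roots)

/-- the constant coefficient dominates -/
def Dom {L : Type*} [Field L] {Γ : Type*} [LinearOrderedCommGroupWithZero Γ] (v : Valuation L Γ)
    (F : L[X]) : Prop :=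
  1 < v (F.coeff 0) ∧ ∀ j, 0 < j → j < F.natDegree →
    v (F.coeff j) ^ F.natDegree < v (F.coeff 0) ^ (F.natDegree - j)

section val

variable {L : Type*} [Field L] {Γ : Type*} [LinearOrderedCommGroupWithZero Γ] (v : Valuation L Γ)
  {F : L[X]} {D : ℕ} {μ : L}

lemma eq_of_pow {s t : Γ} {k : ℕ} (hk : k ≠ 0) (h : s ^ k = t ^ k) : s = t := by
  rcases lt_trichotomy s t with h1 | h1 | h1
  · exact absurd h (pow_lt_pow_left₀ h1 zero_le hk).ne
  · exact h1
  · exact absurd h (pow_lt_pow_left₀ h1 zero_le hk).ne'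

/-- large arguments -/
lemma dom_large (hF : F.Monic) (he : 0 < F.natDegree) (hv : Dom v F) {X : L}
    (hX : v (F.coeff 0) < v X ^ F.natDegree) : v (F.eval X) = v X ^ F.natDegree := by
  have hX0 : v X ≠ 0 := by
    intro h
    rw [h, zero_pow he.ne'] at hX
    exact absurd hX (not_lt.2 zero_le)
  rw [eval_lead hF]
  have h0 : v (X ^ F.natDegree) ≠ 0 := by
    rw [map_pow]
    exact pow_ne_zero _ hX0
  rw [Valuation.map_add_eq_of_lt_right v, map_pow]
  refine Valuation.map_sum_lt v h0 fun j hj => ?_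
  rw [mem_range] at hj
  rw [map_mul, map_pow, map_pow]
  rcases Nat.eq_zero_or_pos j with rfl | hj0
  · rw [pow_zero, mul_one]
    exact hX
  refine lt_of_pow_lt_pow_left₀ F.natDegree zero_le ?_
  rw [mul_pow]
  calc v (F.coeff j) ^ F.natDegree * (v X ^ j) ^ F.natDegree <
      v (F.coeff 0) ^ (F.natDegree - j) * (v X ^ j) ^ F.natDegree :=
        mul_lt_mul_of_pos_right (hv.2 j hj0 hj)
          (zero_lt_iff.2 (pow_ne_zero _ (pow_ne_zero _ hX0)))
    _ ≤ (v X ^ F.natDegree) ^ (F.natDegree - j) * (v X ^ j) ^ F.natDegree := by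
        gcongr
    _ = (v X ^ F.natDegree) ^ F.natDegree := by
        rw [← pow_mul, ← pow_mul, ← pow_mul, ← pow_add]
        congr 1
        rw [mul_comm j, ← Nat.mul_add, Nat.sub_add_cancel hj.le]

/-- small arguments -/
lemma dom_small (hF : F.Monic) (he : 0 < F.natDegree) (hv : Dom v F) {X : L}
    (hX : v X ^ F.natDegree < v (F.coeff 0)) : v (F.eval X) = v (F.coeff 0) := by
  have hc0 : v (F.coeff 0) ≠ 0 := ne_of_gt (lt_trans zero_lt_one hv.1)
  rw [eval_eq_sum_range, sum_range_succ', pow_zero, mul_one]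
  rw [Valuation.map_add_eq_of_lt_right v]
  refine Valuation.map_sum_lt v hc0 fun i hi => ?_
  rw [mem_range] at hi
  rw [map_mul, map_pow]
  rcases Nat.lt_or_ge (i + 1) F.natDegree with hj | hj
  · refine lt_of_pow_lt_pow_left₀ F.natDegree zero_le ?_
    rw [mul_pow]
    calc v (F.coeff (i + 1)) ^ F.natDegree * (v X ^ (i + 1)) ^ F.natDegree ≤
        v (F.coeff (i + 1)) ^ F.natDegree * v (F.coeff 0) ^ (i + 1) := by
          have : (v X ^ (i + 1)) ^ F.natDegree ≤ v (F.coeff 0) ^ (i + 1) := by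
            rw [← pow_mul, mul_comm, pow_mul]
            gcongr
          gcongr
      _ < v (F.coeff 0) ^ (F.natDegree - (i + 1)) * v (F.coeff 0) ^ (i + 1) :=
          mul_lt_mul_of_pos_right (hv.2 _ (Nat.succ_pos i) hj) (zero_lt_iff.2 (pow_ne_zero _ hc0))
      _ = v (F.coeff 0) ^ F.natDegree := by
          rw [← pow_add, Nat.sub_add_cancel hj.le]
  · have e : i + 1 = F.natDegree := by omega
    rw [e, hF.coeff_natDegree, map_one, one_mul]
    exact hX

/-- all preperiodic points have the same size -/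
lemma bad_bound (hF : F.Monic) (hd : 2 ≤ D * F.natDegree) (hv : Dom v F) {x : L}
    (hx : PP (fs F D) x) : v x ^ (D * F.natDegree) = v (F.coeff 0) := by
  have he : 0 < F.natDegree := Nat.pos_of_ne_zero (by intro h; rw [h] at hd; omega)
  have key : ∀ y : L, v (F.coeff 0) < v y ^ (D * F.natDegree) → ¬ PP (fs F D) y := by
    intro y hy
    refine not_pp_of_incr (fs F D) v (fun y => v (F.coeff 0) < v y ^ (D * F.natDegree)) ?_ hy
    intro y hy
    have h1 : v (fs F D y) = v y ^ (D * F.natDegree) := by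
      unfold fs
      rw [dom_large v hF he hv (by rw [map_pow, ← pow_mul]; exact hy), map_pow, ← pow_mul]
    have hy1 : 1 < v y := by
      by_contra h
      push Not at h
      exact absurd (hv.1.trans hy) (not_lt.2 (_root_.pow_le_one' h _))
    have h2 : v y < v (fs F D y) := by
      rw [h1]
      calc v y = v y ^ 1 := (pow_one _).symm
        _ < _ := pow_lt_pow_right₀ hy1 (by omega)
    refine ⟨?_, h2⟩
    refine hy.trans_le ?_
    have := h2.le
    gcongr
  rcases lt_trichotomy (v x ^ (D * F.natDegree)) (v (F.coeff 0)) with h | h | h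
  · exfalso
    have h2 : v (fs F D x) = v (F.coeff 0) := by
      unfold fs
      exact dom_small v hF he hv (by rw [map_pow, ← pow_mul]; exact h)
    refine key (fs F D x) ?_ hx.map
    rw [h2]
    calc v (F.coeff 0) = v (F.coeff 0) ^ 1 := (pow_one _).symm
      _ < _ := pow_lt_pow_right₀ hv.1 (by omega)
  · exact h
  · exact absurd hx (key x h)

lemma bad_eq (hF : F.Monic) (hd : 2 ≤ D * F.natDegree) (hv : Dom v F) {x y : L}
    (hx : PP (fs F D) x) (hy : PP (fs F D) y) : v x = v y :=
  eq_of_pow (k := D * F.natDegree) (by omega)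
    ((bad_bound v hF hd hv hx).trans (bad_bound v hF hd hv hy).symm)

lemma bad_one (hF : F.Monic) (hd : 2 ≤ D * F.natDegree) (hv : Dom v F) {x : L}
    (hx : PP (fs F D) x) : 1 < v x := by
  by_contra h
  push Not at h
  have h1 := bad_bound v hF hd hv hx
  exact absurd (h1 ▸ hv.1) (not_lt.2 (_root_.pow_le_one' h _))

/-- the quotient near the diagonal -/
lemma quo_near (hF : F.Monic) (he : 0 < F.natDegree) (hve : v (F.natDegree : L) = 1)
    (hv : Dom v F) {X Y : L} (hY : v Y ^ F.natDegree = v (F.coeff 0)) (hX : v X = v Y)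
    (h : v (X - Y) < v Y) : v (quo F X Y) = v Y ^ (F.natDegree - 1) := by
  have hc0 : v (F.coeff 0) ≠ 0 := ne_of_gt (lt_trans zero_lt_one hv.1)
  have hY0 : v Y ≠ 0 := by
    intro h0
    rw [h0, zero_pow he.ne'] at hY
    exact hc0 hY.symm
  have hne : v Y ^ (F.natDegree - 1) ≠ 0 := pow_ne_zero _ hY0
  have hpow : ∀ i : ℕ, v (X ^ i - Y ^ i) < v Y ^ i ∨ i = 0 := by
    intro i
    rcases Nat.eq_zero_or_pos i with hi | hi
    · exact Or.inr hi
    left
    rw [← (Commute.all X Y).geom_sum₂_mul, map_mul]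
    have h1 : v (∑ k ∈ range i, X ^ k * Y ^ (i - 1 - k)) ≤ v Y ^ (i - 1) := by
      refine Valuation.map_sum_le v fun k hk => ?_
      rw [mem_range] at hk
      rw [map_mul, map_pow, map_pow, hX, ← pow_add]
      have e : k + (i - 1 - k) = i - 1 := by omega
      rw [e]
    calc v (∑ k ∈ range i, X ^ k * Y ^ (i - 1 - k)) * v (X - Y) ≤ v Y ^ (i - 1) * v (X - Y) := by
          gcongr
      _ < v Y ^ (i - 1) * v Y := mul_lt_mul_of_pos_left h (zero_lt_iff.2 (pow_ne_zero _ hY0))
      _ = v Y ^ i := by rw [← pow_succ, Nat.sub_add_cancel hi]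
  unfold quo
  rw [sum_range_succ, hF.coeff_natDegree, one_mul]
  -- the main term
  have hmain : v (∑ i ∈ range F.natDegree, X ^ i * Y ^ (F.natDegree - 1 - i)) =
      v Y ^ (F.natDegree - 1) := by
    have e : ∑ i ∈ range F.natDegree, X ^ i * Y ^ (F.natDegree - 1 - i) =
        (∑ i ∈ range F.natDegree, (X ^ i - Y ^ i) * Y ^ (F.natDegree - 1 - i)) +
          (F.natDegree : L) * Y ^ (F.natDegree - 1) := by
      have e2 : (F.natDegree : L) * Y ^ (F.natDegree - 1) =
          ∑ i ∈ range F.natDegree, Y ^ i * Y ^ (F.natDegree - 1 - i) := by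
        rw [← nsmul_eq_mul, ← card_range F.natDegree, ← sum_const, card_range]
        refine sum_congr rfl fun i hi => ?_
        rw [mem_range] at hi
        rw [← pow_add]
        congr 1
        omega
      rw [e2, ← sum_add_distrib]
      refine sum_congr rfl fun i _ => ?_
      ring
    rw [e, Valuation.map_add_eq_of_lt_right v]
    · rw [map_mul, hve, one_mul, map_pow]
    · rw [map_mul, hve, one_mul, map_pow]
      refine Valuation.map_sum_lt v hne fun i hi => ?_
      rw [mem_range] at hi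
      rw [map_mul, map_pow]
      rcases hpow i with h1 | h1
      · calc v (X ^ i - Y ^ i) * v Y ^ (F.natDegree - 1 - i) <
            v Y ^ i * v Y ^ (F.natDegree - 1 - i) :=
              mul_lt_mul_of_pos_right h1 (zero_lt_iff.2 (pow_ne_zero _ hY0))
          _ = v Y ^ (F.natDegree - 1) := by
              rw [← pow_add]
              congr 1
              omega
      · rw [h1, pow_zero, pow_zero, sub_self, map_zero, zero_mul]
        exact zero_lt_iff.2 hne
  rw [Valuation.map_add_eq_of_lt_right v]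
  · exact hmain
  · rw [hmain]
    refine Valuation.map_sum_lt v hne fun j hj => ?_
    rw [mem_range] at hj
    rcases Nat.eq_zero_or_pos j with rfl | hj0
    · rw [range_zero, sum_empty, mul_zero, map_zero]
      exact zero_lt_iff.2 hne
    rw [map_mul]
    have h1 : v (∑ k ∈ range j, X ^ k * Y ^ (j - 1 - k)) ≤ v Y ^ (j - 1) := by
      refine Valuation.map_sum_le v fun k hk => ?_
      rw [mem_range] at hk
      rw [map_mul, map_pow, map_pow, hX, ← pow_add]
      have e : k + (j - 1 - k) = j - 1 := by omega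
      rw [e]
    have h2 : v (F.coeff j) < v Y ^ (F.natDegree - j) := by
      refine lt_of_pow_lt_pow_left₀ F.natDegree zero_le ?_
      rw [← pow_mul, mul_comm (F.natDegree - j), pow_mul, hY]
      exact hv.2 j hj0 hj
    calc v (F.coeff j) * v (∑ k ∈ range j, X ^ k * Y ^ (j - 1 - k)) ≤
        v (F.coeff j) * v Y ^ (j - 1) := by gcongr
      _ < v Y ^ (F.natDegree - j) * v Y ^ (j - 1) :=
          mul_lt_mul_of_pos_right h2 (zero_lt_iff.2 (pow_ne_zero _ hY0))
      _ = v Y ^ (F.natDegree - 1) := by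
          rw [← pow_add]
          congr 1
          omega

variable [DecidableEq L]

/-- powers near a root of unity -/
lemma powsub_near (hμ : IsPrimitiveRoot μ D) (hD : 0 < D) (hvD : v (D : L) = 1) {x y ζ : L}
    (hζ : ζ ^ D = 1) (h : v (x - ζ * y) < v y) :
    v (x ^ D - y ^ D) = v y ^ (D - 1) * v (x - ζ * y) := by
  rw [hμ.pow_sub_pow_eq_prod_sub_mul x y hD, map_prod,
    ← mul_prod_erase _ _ ((mem_roots hD).2 hζ), mul_comm]
  congr 1
  have hc : ((nthRootsFinset D (1 : L)).erase ζ).card = D - 1 := by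
    rw [card_erase_of_mem ((mem_roots hD).2 hζ), hμ.card_nthRootsFinset]
  rw [← hc]
  apply prod_eq_pow_card
  intro ζ' hζ'
  rw [mem_erase, mem_roots hD] at hζ'
  have e : x - ζ' * y = (x - ζ * y) + (ζ - ζ') * y := by ring
  rw [e, Valuation.map_add_eq_of_lt_right v]
  · rw [map_mul, v_zeta_sub v hD hvD hζ hζ'.2 (Ne.symm hζ'.1), one_mul]
  · rw [map_mul, v_zeta_sub v hD hvD hζ hζ'.2 (Ne.symm hζ'.1), one_mul]
    exact h

/-- one step at a bad place -/
lemma bad_step (hμ : IsPrimitiveRoot μ D) (hF : F.Monic) (hd : 2 ≤ D * F.natDegree)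
    (hvD : v (D : L) = 1) (hve : v (F.natDegree : L) = 1) (hv : Dom v F) {x y : L}
    (hx : PP (fs F D) x) (hy : PP (fs F D) y) {ζ : L} (hζ : ζ ^ D = 1) :
    v (x - ζ * y) = v y ∨
      v y ^ (D * F.natDegree - 1) * v (x - ζ * y) = v (fs F D x - fs F D y) := by
  have hD : 0 < D := Nat.pos_of_ne_zero (by rintro rfl; omega)
  have he : 0 < F.natDegree := Nat.pos_of_ne_zero (by intro h; rw [h] at hd; omega)
  by_cases h : v (x - ζ * y) = v y
  · exact Or.inl h
  right
  have hxy := bad_eq v hF hd hv hx hy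
  have hlt : v (x - ζ * y) < v y := by
    refine lt_of_le_of_ne ?_ h
    have := v_sub_le v hD.ne' hζ x y
    rwa [hxy, max_self] at this
  have hy0 : v y ≠ 0 := ne_of_gt (lt_trans zero_lt_one (bad_one v hF hd hv hy))
  have h1 := powsub_near v hμ hD hvD hζ hlt
  have h2 : v (x ^ D - y ^ D) < v (y ^ D) := by
    rw [h1, map_pow]
    calc v y ^ (D - 1) * v (x - ζ * y) < v y ^ (D - 1) * v y :=
          mul_lt_mul_of_pos_left hlt (zero_lt_iff.2 (pow_ne_zero _ hy0))
      _ = v y ^ D := by rw [← pow_succ, Nat.sub_add_cancel hD]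
  have h3 := quo_near v hF he hve hv (X := x ^ D) (Y := y ^ D)
    (by rw [map_pow, ← pow_mul]; exact bad_bound v hF hd hv hy)
    (by rw [map_pow, map_pow, hxy]) h2
  unfold fs
  rw [quo_mul, map_mul, h3, h1, map_pow, ← pow_mul, ← mul_assoc, ← pow_add]
  congr 2
  obtain ⟨e, he'⟩ : ∃ e, F.natDegree = e + 1 := ⟨F.natDegree - 1, by omega⟩
  rw [he', Nat.add_sub_cancel, Nat.mul_succ]
  omega

/-- differences at a bad place -/
lemma bad_diff (hμ : IsPrimitiveRoot μ D) (hF : F.Monic) (hd : 2 ≤ D * F.natDegree)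
    (hvD : v (D : L) = 1) (hve : v (F.natDegree : L) = 1) (hv : Dom v F) {x y : L}
    (hx : PP (fs F D) x) (hy : PP (fs F D) y) (hn : NM (fs F D) x y) :
    ∃ m : ℕ, v (x - y) * (v y ^ (D * F.natDegree - 1)) ^ m = v y := by
  obtain ⟨k, hk⟩ : ∃ k : ℕ, v ((fs F D)^[k] x - (fs F D)^[k] y) = v y := by
    by_contra hcon
    push Not at hcon
    obtain ⟨m, n, hmn, e1, e2⟩ := common_pp hx hy
    have h1 : StrictMono (fun k => v ((fs F D)^[k] x - (fs F D)^[k] y)) := by
      apply strictMono_nat_of_lt_succ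
      intro k
      show v ((fs F D)^[k] x - (fs F D)^[k] y) < v ((fs F D)^[k + 1] x - (fs F D)^[k + 1] y)
      have h2 := bad_step v hμ hF hd hvD hve hv (hx.iter k) (hy.iter k) (one_pow D)
      rw [one_mul, bad_eq v hF hd hv (hy.iter k) hy] at h2
      have h3 := h2.resolve_left (hcon k)
      rw [Function.iterate_succ_apply', Function.iterate_succ_apply', ← h3]
      have h4 : 1 < v y ^ (D * F.natDegree - 1) :=
        one_lt_pow₀ (bad_one v hF hd hv hy) (by omega)
      have h5 : 0 < v ((fs F D)^[k] x - (fs F D)^[k] y) :=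
        zero_lt_iff.2 ((Valuation.ne_zero_iff v).2 (sub_ne_zero.2 (hn k)))
      calc v ((fs F D)^[k] x - (fs F D)^[k] y) = 1 * v ((fs F D)^[k] x - (fs F D)^[k] y) :=
            (one_mul _).symm
        _ < _ := mul_lt_mul_of_pos_right h4 h5
    have h2 : v ((fs F D)^[m] x - (fs F D)^[m] y) < v ((fs F D)^[n] x - (fs F D)^[n] y) :=
      h1 hmn
    rw [e1, e2] at h2
    exact lt_irrefl _ h2
  induction k generalizing x y with
  | zero => exact ⟨0, by rw [pow_zero, mul_one]; exact hk⟩
  | succ k ih =>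
    have h1 := bad_eq v hF hd hv hy hy.map
    have h2 := ih hx.map hy.map hn.map (by
      rw [← Function.iterate_succ_apply, ← Function.iterate_succ_apply, Nat.succ_eq_add_one, hk, h1])
    obtain ⟨m, hm⟩ := h2
    rw [← h1] at hm
    have h3 := bad_step v hμ hF hd hvD hve hv hx hy (one_pow D)
    rw [one_mul] at h3
    rcases h3 with h3 | h3
    · exact ⟨0, by rw [pow_zero, mul_one]; exact h3⟩
    · refine ⟨m + 1, ?_⟩
      refine Eq.trans ?_ hm
      rw [← h3, pow_succ]
      ac_rfl

/-- the factors at a bad place -/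
lemma bad_factor (hμ : IsPrimitiveRoot μ D) (hF : F.Monic) (hd : 2 ≤ D * F.natDegree)
    (hvD : v (D : L) = 1) (hve : v (F.natDegree : L) = 1) (hv : Dom v F) {x y : L}
    (hx : PP (fs F D) x) (hy : PP (fs F D) y) (hn : NM (fs F D) x y) {ζ : L}
    (hζ : ζ ^ D = 1) :
    ∃ m : ℕ, v (x - ζ * y) * (v y ^ (D * F.natDegree - 1)) ^ m = v y := by
  rcases bad_step v hμ hF hd hvD hve hv hx hy hζ with h | h
  · exact ⟨0, by rw [pow_zero, mul_one]; exact h⟩
  · obtain ⟨m, hm⟩ := bad_diff v hμ hF hd hvD hve hv hx.map hy.map hn.map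
    rw [← bad_eq v hF hd hv hy hy.map] at hm
    refine ⟨m + 1, ?_⟩
    refine Eq.trans ?_ hm
    rw [← h, pow_succ]
    ac_rfl

omit [DecidableEq L] in
/-- the ratio of two preperiodic points is near a root of unity of order `D e` -/
lemma bad_ratio_near (hF : F.Monic) (hd : 2 ≤ D * F.natDegree) (hv : Dom v F) {x y : L}
    (hx : PP (fs F D) x) (hy : PP (fs F D) y) :
    v ((x / y) ^ (D * F.natDegree) - 1) < 1 := by
  have he : 0 < F.natDegree := Nat.pos_of_ne_zero (by intro h; rw [h] at hd; omega)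
  have hD : 0 < D := Nat.pos_of_ne_zero (by rintro rfl; omega)
  have hxy := bad_eq v hF hd hv hx hy
  have hy1 := bad_one v hF hd hv hy
  have hyb := bad_bound v hF hd hv hy
  have hy0 : v y ≠ 0 := ne_of_gt (lt_trans zero_lt_one hy1)
  have hyn : y ≠ 0 := (Valuation.ne_zero_iff v).1 hy0
  have hc0 : v (F.coeff 0) ≠ 0 := ne_of_gt (lt_trans zero_lt_one hv.1)
  have h1 : v (fs F D x - fs F D y) < v (F.coeff 0) := by
    refine lt_of_le_of_lt (Valuation.map_sub v _ _) ?_
    rw [bad_eq v hF hd hv hx.map hy, bad_eq v hF hd hv hy.map hy, max_self, ← hyb]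
    calc v y = v y ^ 1 := (pow_one _).symm
      _ < _ := pow_lt_pow_right₀ hy1 (by omega)
  have h2 : v ((fs F D x - fs F D y) - (x ^ (D * F.natDegree) - y ^ (D * F.natDegree))) <
      v (F.coeff 0) := by
    have e : (fs F D x - fs F D y) - (x ^ (D * F.natDegree) - y ^ (D * F.natDegree)) =
        ∑ j ∈ range F.natDegree, F.coeff j * ((x ^ D) ^ j - (y ^ D) ^ j) := by
      unfold fs
      rw [eval_lead hF, eval_lead hF, pow_mul, pow_mul]
      have : ∑ j ∈ range F.natDegree, F.coeff j * ((x ^ D) ^ j - (y ^ D) ^ j) =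
          ∑ j ∈ range F.natDegree, F.coeff j * (x ^ D) ^ j -
            ∑ j ∈ range F.natDegree, F.coeff j * (y ^ D) ^ j := by
        rw [← sum_sub_distrib]
        exact sum_congr rfl fun j _ => by ring
      rw [this]
      ring
    rw [e]
    refine Valuation.map_sum_lt v hc0 fun j hj => ?_
    rw [mem_range] at hj
    rcases Nat.eq_zero_or_pos j with rfl | hj0
    · rw [pow_zero, pow_zero, sub_self, mul_zero, map_zero]
      exact zero_lt_iff.2 hc0
    rw [map_mul]
    have h3 : v ((x ^ D) ^ j - (y ^ D) ^ j) ≤ v y ^ (D * j) := by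
      refine (Valuation.map_sub v _ _).trans ?_
      rw [← pow_mul, ← pow_mul, map_pow, map_pow, hxy, max_self]
    refine lt_of_pow_lt_pow_left₀ F.natDegree zero_le ?_
    have hp : 0 < (v y ^ (D * j)) ^ F.natDegree := zero_lt_iff.2 (pow_ne_zero _ (pow_ne_zero _ hy0))
    calc (v (F.coeff j) * v ((x ^ D) ^ j - (y ^ D) ^ j)) ^ F.natDegree ≤
        (v (F.coeff j) * v y ^ (D * j)) ^ F.natDegree := by gcongr
      _ = v (F.coeff j) ^ F.natDegree * (v y ^ (D * j)) ^ F.natDegree := mul_pow _ _ _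
      _ < v (F.coeff 0) ^ (F.natDegree - j) * (v y ^ (D * j)) ^ F.natDegree :=
          mul_lt_mul_of_pos_right (hv.2 j hj0 hj) hp
      _ = v (F.coeff 0) ^ F.natDegree := by
          have e2 : (v y ^ (D * j)) ^ F.natDegree = v (F.coeff 0) ^ j := by
            rw [← hyb, ← pow_mul, ← pow_mul]
            congr 1
            ring
          rw [e2, ← pow_add, Nat.sub_add_cancel hj.le]
  have h3 : v (x ^ (D * F.natDegree) - y ^ (D * F.natDegree)) < v (F.coeff 0) := by
    have e : x ^ (D * F.natDegree) - y ^ (D * F.natDegree) = (fs F D x - fs F D y) -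
      ((fs F D x - fs F D y) - (x ^ (D * F.natDegree) - y ^ (D * F.natDegree))) := by ring
    rw [e]
    exact lt_of_le_of_lt (Valuation.map_sub v _ _) (max_lt h1 h2)
  have e : (x / y) ^ (D * F.natDegree) - 1 =
      (x ^ (D * F.natDegree) - y ^ (D * F.natDegree)) / y ^ (D * F.natDegree) := by
    rw [div_pow, sub_div, div_self (pow_ne_zero _ hyn)]
  rw [e, map_div₀, map_pow, hyb]
  exact (div_lt_one₀ (zero_lt_iff.2 hc0)).2 h3

end val

end Pool.Agent.Zk42.US
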