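import Pool.Agent.Zk42.US.Bad

/-! The polynomials `H (F (x ^ D))`, `H` integral, at the places where the constant coefficient
of `F` dominates. -/

set_option autoImplicit false

namespace Pool.Agent.Zk42.US

open Finset Polynomial
open Pool.Agent.Zk42.UC (PP Per NM common_period common_pp per_inj per_NM not_pp_of_incr v_zeta
  v_sub_le v_zeta_one v_zeta_sub mem_roots)

section val

variable {L : Type*} [Field L] {Γ : Type*} [LinearOrderedCommGroupWithZero Γ] (v : Valuation L Γ)
  {F H : L[X]} {D : ℕ} {μ : L}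

lemma fs_comp (x : L) : fs (H.comp F) D x = H.eval (F.eval (x ^ D)) := by
  unfold fs
  rw [eval_comp]

/-- all preperiodic points have the same size -/
lemma comp_bound (hF : F.Monic) (hH : H.Monic) (hi : ∀ j, v (H.coeff j) ≤ 1)
    (hd : 2 ≤ D * F.natDegree * H.natDegree) (hv : Dom v F) {x : L}
    (hx : PP (fs (H.comp F) D) x) : v x ^ (D * F.natDegree) = v (F.coeff 0) := by
  have hN : 0 < D * F.natDegree := Nat.pos_of_ne_zero (by intro h; rw [h, zero_mul] at hd; omega)
  have he : 0 < F.natDegree := Nat.pos_of_ne_zero (by intro h; rw [h, mul_zero] at hN; omega)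
  have he2 : 0 < H.natDegree := Nat.pos_of_ne_zero (by intro h; rw [h, mul_zero] at hd; omega)
  have key : ∀ y : L, v (F.coeff 0) < v y ^ (D * F.natDegree) → ¬ PP (fs (H.comp F) D) y := by
    intro y hy
    refine not_pp_of_incr (fs (H.comp F) D) v
      (fun y => v (F.coeff 0) < v y ^ (D * F.natDegree)) ?_ hy
    intro y hy
    have h1 : v (F.eval (y ^ D)) = v y ^ (D * F.natDegree) := by
      rw [dom_large v hF he hv (by rw [map_pow, ← pow_mul]; exact hy), map_pow, ← pow_mul]
    have h1' : 1 < v (F.eval (y ^ D)) := by rw [h1]; exact hv.1.trans hy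
    have h2 : v (fs (H.comp F) D y) = v y ^ (D * F.natDegree * H.natDegree) := by
      rw [fs_comp, eval_large v hH hi h1', h1, ← pow_mul]
    have hy1 : 1 < v y := by
      by_contra h
      push Not at h
      exact absurd (hv.1.trans hy) (not_lt.2 (_root_.pow_le_one' h _))
    have h3 : v y < v (fs (H.comp F) D y) := by
      rw [h2]
      calc v y = v y ^ 1 := (pow_one _).symm
        _ < _ := pow_lt_pow_right₀ hy1 (by omega)
    refine ⟨?_, h3⟩
    refine hy.trans_le ?_
    have := h3.le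
    gcongr
  rcases lt_trichotomy (v x ^ (D * F.natDegree)) (v (F.coeff 0)) with h | h | h
  · exfalso
    have h2 : v (F.eval (x ^ D)) = v (F.coeff 0) :=
      dom_small v hF he hv (by rw [map_pow, ← pow_mul]; exact h)
    have h3 : v (fs (H.comp F) D x) = v (F.coeff 0) ^ H.natDegree := by
      rw [fs_comp, eval_large v hH hi (by rw [h2]; exact hv.1), h2]
    refine key (fs (H.comp F) D x) ?_ hx.map
    rw [h3, ← pow_mul]
    calc v (F.coeff 0) = v (F.coeff 0) ^ 1 := (pow_one _).symm
      _ < _ := pow_lt_pow_right₀ hv.1 (by rw [mul_comm H.natDegree]; omega)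
  · exact h
  · exact absurd hx (key x h)

lemma comp_eq (hF : F.Monic) (hH : H.Monic) (hi : ∀ j, v (H.coeff j) ≤ 1)
    (hd : 2 ≤ D * F.natDegree * H.natDegree) (hv : Dom v F) {x y : L}
    (hx : PP (fs (H.comp F) D) x) (hy : PP (fs (H.comp F) D) y) : v x = v y := by
  have hN : 0 < D * F.natDegree := Nat.pos_of_ne_zero (by intro h; rw [h, zero_mul] at hd; omega)
  exact eq_of_pow hN.ne' ((comp_bound v hF hH hi hd hv hx).trans
    (comp_bound v hF hH hi hd hv hy).symm)

lemma comp_one (hF : F.Monic) (hH : H.Monic) (hi : ∀ j, v (H.coeff j) ≤ 1)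
    (hd : 2 ≤ D * F.natDegree * H.natDegree) (hv : Dom v F) {x : L}
    (hx : PP (fs (H.comp F) D) x) : 1 < v x := by
  by_contra h
  push Not at h
  have h1 := comp_bound v hF hH hi hd hv hx
  exact absurd (h1 ▸ hv.1) (not_lt.2 (_root_.pow_le_one' h _))

/-- the size of the inner value -/
lemma comp_inner (hF : F.Monic) (hH : H.Monic) (hi : ∀ j, v (H.coeff j) ≤ 1)
    (hd : 2 ≤ D * F.natDegree * H.natDegree) (hv : Dom v F) {x : L}
    (hx : PP (fs (H.comp F) D) x) :
    1 < v (F.eval (x ^ D)) ∧ v (F.eval (x ^ D)) ^ H.natDegree = v x := by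
  have h1 := comp_one v hF hH hi hd hv hx.map
  rw [fs_comp] at h1
  have h2 : 1 < v (F.eval (x ^ D)) := by
    by_contra h
    push Not at h
    have h3 : v (H.eval (F.eval (x ^ D))) ≤ 1 := by
      rw [eval_eq_sum_range]
      refine Valuation.map_sum_le v fun j _ => ?_
      rw [map_mul]
      exact mul_le_one' (hi j) (pow_le_one' v h _)
    exact absurd h1 (not_lt.2 h3)
  refine ⟨h2, ?_⟩
  rw [← eval_large v hH hi h2, ← fs_comp]
  exact comp_eq v hF hH hi hd hv hx.map hx

/-- the quotient of an integral polynomial at large arguments near each other -/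
lemma quo_large (hH : H.Monic) (he : 0 < H.natDegree) (hve : v (H.natDegree : L) = 1)
    (hi : ∀ j, v (H.coeff j) ≤ 1) {X Y : L} (hY : 1 < v Y) (hX : v X = v Y)
    (h : v (X - Y) < v Y) : v (quo H X Y) = v Y ^ (H.natDegree - 1) := by
  have hY0 : v Y ≠ 0 := ne_of_gt (lt_trans zero_lt_one hY)
  have hne : v Y ^ (H.natDegree - 1) ≠ 0 := pow_ne_zero _ hY0
  have hpow : ∀ i : ℕ, v (X ^ i - Y ^ i) < v Y ^ i ∨ i = 0 := by
    intro i
    rcases Nat.eq_zero_or_pos i with hi | hi
    · exact Or.inr hi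
    left
    rw [← (Commute.all X Y).geom_sum₂_mul, map_mul]
    have h1 : v (∑ k ∈ range i, X ^ k * Y ^ (i - 1 - k)) ≤ v Y ^ (i - 1) := by
      refine Valuation.map_sum_le v fun k hk => ?_
      rw [mem_range] at hk
      rw [map_mul, map_pow, map_pow, hX, ← pow_add]
      have e : k + (i - 1 - k) = i - 1 := by omega
      rw [e]
    calc v (∑ k ∈ range i, X ^ k * Y ^ (i - 1 - k)) * v (X - Y) ≤ v Y ^ (i - 1) * v (X - Y) := by
          gcongr
      _ < v Y ^ (i - 1) * v Y := mul_lt_mul_of_pos_left h (zero_lt_iff.2 (pow_ne_zero _ hY0))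
      _ = v Y ^ i := by rw [← pow_succ, Nat.sub_add_cancel hi]
  unfold quo
  rw [sum_range_succ, hH.coeff_natDegree, one_mul]
  have hmain : v (∑ i ∈ range H.natDegree, X ^ i * Y ^ (H.natDegree - 1 - i)) =
      v Y ^ (H.natDegree - 1) := by
    have e : ∑ i ∈ range H.natDegree, X ^ i * Y ^ (H.natDegree - 1 - i) =
        (∑ i ∈ range H.natDegree, (X ^ i - Y ^ i) * Y ^ (H.natDegree - 1 - i)) +
          (H.natDegree : L) * Y ^ (H.natDegree - 1) := by
      have e2 : (H.natDegree : L) * Y ^ (H.natDegree - 1) =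
          ∑ i ∈ range H.natDegree, Y ^ i * Y ^ (H.natDegree - 1 - i) := by
        rw [← nsmul_eq_mul, ← card_range H.natDegree, ← sum_const, card_range]
        refine sum_congr rfl fun i hi => ?_
        rw [mem_range] at hi
        rw [← pow_add]
        congr 1
        omega
      rw [e2, ← sum_add_distrib]
      refine sum_congr rfl fun i _ => ?_
      ring
    rw [e, Valuation.map_add_eq_of_lt_right v]
    · rw [map_mul, hve, one_mul, map_pow]
    · rw [map_mul, hve, one_mul, map_pow]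
      refine Valuation.map_sum_lt v hne fun i hi => ?_
      rw [mem_range] at hi
      rw [map_mul, map_pow]
      rcases hpow i with h1 | h1
      · calc v (X ^ i - Y ^ i) * v Y ^ (H.natDegree - 1 - i) <
            v Y ^ i * v Y ^ (H.natDegree - 1 - i) :=
              mul_lt_mul_of_pos_right h1 (zero_lt_iff.2 (pow_ne_zero _ hY0))
          _ = v Y ^ (H.natDegree - 1) := by
              rw [← pow_add]
              congr 1
              omega
      · rw [h1, pow_zero, pow_zero, sub_self, map_zero, zero_mul]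
        exact zero_lt_iff.2 hne
  rw [Valuation.map_add_eq_of_lt_right v]
  · exact hmain
  · rw [hmain]
    refine Valuation.map_sum_lt v hne fun j hj => ?_
    rw [mem_range] at hj
    rcases Nat.eq_zero_or_pos j with rfl | hj0
    · rw [range_zero, sum_empty, mul_zero, map_zero]
      exact zero_lt_iff.2 hne
    rw [map_mul]
    have h1 : v (∑ k ∈ range j, X ^ k * Y ^ (j - 1 - k)) ≤ v Y ^ (j - 1) := by
      refine Valuation.map_sum_le v fun k hk => ?_
      rw [mem_range] at hk
      rw [map_mul, map_pow, map_pow, hX, ← pow_add]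
      have e : k + (j - 1 - k) = j - 1 := by omega
      rw [e]
    calc v (H.coeff j) * v (∑ k ∈ range j, X ^ k * Y ^ (j - 1 - k)) ≤
        1 * v Y ^ (j - 1) := by
          gcongr
          exact hi j
      _ = v Y ^ (j - 1) := one_mul _
      _ < v Y ^ (H.natDegree - 1) := pow_lt_pow_right₀ hY (by omega)

variable [DecidableEq L]

/-- one step at a bad place -/
lemma comp_step (hμ : IsPrimitiveRoot μ D) (hF : F.Monic) (hH : H.Monic)
    (hi : ∀ j, v (H.coeff j) ≤ 1) (hd : 2 ≤ D * F.natDegree * H.natDegree)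
    (hvD : v (D : L) = 1) (hve : v (F.natDegree : L) = 1) (hve2 : v (H.natDegree : L) = 1)
    (hv : Dom v F) {σ : Γ} {x y : L} (hx : PP (fs (H.comp F) D) x)
    (hy : PP (fs (H.comp F) D) y) (hσ : σ ^ H.natDegree = v y) {ζ : L} (hζ : ζ ^ D = 1) :
    v (x - ζ * y) = v y ∨ σ ^ (D * F.natDegree * H.natDegree - 1) * v (x - ζ * y) = v y ∨
      σ ^ (D * F.natDegree * H.natDegree - 1) * v (x - ζ * y) =
        v (fs (H.comp F) D x - fs (H.comp F) D y) := by
  have hN : 0 < D * F.natDegree := Nat.pos_of_ne_zero (by intro h; rw [h, zero_mul] at hd; omega)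
  have he : 0 < F.natDegree := Nat.pos_of_ne_zero (by intro h; rw [h, mul_zero] at hN; omega)
  have he2 : 0 < H.natDegree := Nat.pos_of_ne_zero (by intro h; rw [h, mul_zero] at hd; omega)
  have hD : 0 < D := Nat.pos_of_ne_zero (by intro h; rw [h, zero_mul] at hN; omega)
  by_cases h : v (x - ζ * y) = v y
  · exact Or.inl h
  right
  have hxy := comp_eq v hF hH hi hd hv hx hy
  have hlt : v (x - ζ * y) < v y := by
    refine lt_of_le_of_ne ?_ h
    have := v_sub_le v hD.ne' hζ x y
    rwa [hxy, max_self] at this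
  have hy0 : v y ≠ 0 := ne_of_gt (lt_trans zero_lt_one (comp_one v hF hH hi hd hv hy))
  obtain ⟨hu1, hu2⟩ := comp_inner v hF hH hi hd hv hy
  obtain ⟨hw1, hw2⟩ := comp_inner v hF hH hi hd hv hx
  have hu : v (F.eval (y ^ D)) = σ := eq_of_pow he2.ne' (hu2.trans hσ.symm)
  have hw : v (F.eval (x ^ D)) = σ := eq_of_pow he2.ne' ((hw2.trans hxy).trans hσ.symm)
  have h1 := powsub_near v hμ hD hvD hζ hlt
  have h2 : v (x ^ D - y ^ D) < v (y ^ D) := by
    rw [h1, map_pow]
    calc v y ^ (D - 1) * v (x - ζ * y) < v y ^ (D - 1) * v y :=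
          mul_lt_mul_of_pos_left hlt (zero_lt_iff.2 (pow_ne_zero _ hy0))
      _ = v y ^ D := by rw [← pow_succ, Nat.sub_add_cancel hD]
  have h3 := quo_near v hF he hve hv (X := x ^ D) (Y := y ^ D)
    (by rw [map_pow, ← pow_mul]; exact comp_bound v hF hH hi hd hv hy)
    (by rw [map_pow, map_pow, hxy]) h2
  -- the inner difference
  have h4 : v (F.eval (x ^ D) - F.eval (y ^ D)) =
      σ ^ (H.natDegree * (D * F.natDegree - 1)) * v (x - ζ * y) := by
    rw [quo_mul, map_mul, h3, h1, map_pow, ← pow_mul, ← mul_assoc, ← pow_add, pow_mul σ, hσ]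
    congr 2
    obtain ⟨e, he'⟩ : ∃ e, F.natDegree = e + 1 := ⟨F.natDegree - 1, by omega⟩
    rw [he', Nat.add_sub_cancel, Nat.mul_succ]
    omega
  have hexp : H.natDegree - 1 + H.natDegree * (D * F.natDegree - 1) =
      D * F.natDegree * H.natDegree - 1 := by
    obtain ⟨N, hN'⟩ : ∃ N, D * F.natDegree = N + 1 := ⟨D * F.natDegree - 1, by omega⟩
    rw [hN', Nat.add_sub_cancel, Nat.succ_mul, mul_comm H.natDegree N]
    omega
  by_cases h5 : v (F.eval (x ^ D) - F.eval (y ^ D)) = σ
  · left
    rw [← hexp, pow_add, mul_assoc, ← h4, h5, ← pow_succ, Nat.sub_add_cancel he2, hσ]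
  · right
    have h6 : v (F.eval (x ^ D) - F.eval (y ^ D)) < v (F.eval (y ^ D)) := by
      rw [hu]
      refine lt_of_le_of_ne ?_ h5
      refine (Valuation.map_sub v _ _).trans ?_
      rw [hu, hw, max_self]
    have h7 := quo_large v hH he2 hve2 hi hu1 (hw.trans hu.symm) h6
    rw [fs_comp, fs_comp, quo_mul (F := H), map_mul, h7, hu, h4, ← mul_assoc, ← pow_add, hexp]

/-- differences at a bad place -/
lemma comp_diff (hμ : IsPrimitiveRoot μ D) (hF : F.Monic) (hH : H.Monic)
    (hi : ∀ j, v (H.coeff j) ≤ 1) (hd : 2 ≤ D * F.natDegree * H.natDegree)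
    (hvD : v (D : L) = 1) (hve : v (F.natDegree : L) = 1) (hve2 : v (H.natDegree : L) = 1)
    (hv : Dom v F) {σ : Γ} {x y : L} (hx : PP (fs (H.comp F) D) x)
    (hy : PP (fs (H.comp F) D) y) (hσ : σ ^ H.natDegree = v y) (hn : NM (fs (H.comp F) D) x y) :
    ∃ m : ℕ, v (x - y) * (σ ^ (D * F.natDegree * H.natDegree - 1)) ^ m = v y := by
  set f := fs (H.comp F) D with hf
  set q := σ ^ (D * F.natDegree * H.natDegree - 1) with hq
  have he2 : 0 < H.natDegree := Nat.pos_of_ne_zero (by intro h; rw [h, mul_zero] at hd; omega)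
  have hq1 : 1 < q := by
    have h1 : 1 < σ := by
      by_contra hc
      push Not at hc
      have h2 := comp_one v hF hH hi hd hv hy
      rw [← hσ] at h2
      exact absurd h2 (not_lt.2 (_root_.pow_le_one' hc _))
    exact one_lt_pow₀ h1 (by omega)
  have step : ∀ a b : L, PP f a → PP f b → v b = v y →
      v (a - b) = v y ∨ q * v (a - b) = v y ∨ q * v (a - b) = v (f a - f b) := by
    intro a b ha hb hby
    have := comp_step v hμ hF hH hi hd hvD hve hve2 hv ha hb (hσ.trans hby.symm) (one_pow D)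
    rwa [one_mul, hby] at this
  obtain ⟨k, hk⟩ : ∃ k : ℕ, v (f^[k] x - f^[k] y) = v y ∨ q * v (f^[k] x - f^[k] y) = v y := by
    by_contra hcon
    push Not at hcon
    obtain ⟨m, n, hmn, e1, e2⟩ := common_pp hx hy
    have h1 : StrictMono (fun k => v (f^[k] x - f^[k] y)) := by
      apply strictMono_nat_of_lt_succ
      intro k
      show v (f^[k] x - f^[k] y) < v (f^[k + 1] x - f^[k + 1] y)
      have h2 := step _ _ (hx.iter k) (hy.iter k) (comp_eq v hF hH hi hd hv (hy.iter k) hy)
      have h3 := (h2.resolve_left (hcon k).1).resolve_left (hcon k).2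
      rw [Function.iterate_succ_apply', Function.iterate_succ_apply', ← h3]
      have h5 : 0 < v (f^[k] x - f^[k] y) :=
        zero_lt_iff.2 ((Valuation.ne_zero_iff v).2 (sub_ne_zero.2 (hn k)))
      calc v (f^[k] x - f^[k] y) = 1 * v (f^[k] x - f^[k] y) := (one_mul _).symm
        _ < _ := mul_lt_mul_of_pos_right hq1 h5
    have h2 : v (f^[m] x - f^[m] y) < v (f^[n] x - f^[n] y) := h1 hmn
    rw [e1, e2] at h2
    exact lt_irrefl _ h2
  have main : ∀ (k : ℕ) (a b : L), PP f a → PP f b →
      (v (f^[k] a - f^[k] b) = v y ∨ q * v (f^[k] a - f^[k] b) = v y) →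
      ∃ m : ℕ, v (a - b) * q ^ m = v y := by
    intro k
    induction k with
    | zero =>
      intro a b _ _ h
      rcases h with h | h
      · exact ⟨0, by rw [pow_zero, mul_one]; exact h⟩
      · exact ⟨1, by rw [pow_one, mul_comm]; exact h⟩
    | succ k ih =>
      intro a b ha hb h
      rw [Function.iterate_succ_apply, Function.iterate_succ_apply] at h
      obtain ⟨m, hm⟩ := ih _ _ ha.map hb.map h
      rcases step a b ha hb (comp_eq v hF hH hi hd hv hb hy) with h3 | h3 | h3
      · exact ⟨0, by rw [pow_zero, mul_one]; exact h3⟩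
      · exact ⟨1, by rw [pow_one, mul_comm]; exact h3⟩
      · refine ⟨m + 1, ?_⟩
        refine Eq.trans ?_ hm
        rw [← h3, pow_succ]
        ac_rfl
  exact main k x y hx hy hk

/-- the factors at a bad place -/
lemma comp_factor (hμ : IsPrimitiveRoot μ D) (hF : F.Monic) (hH : H.Monic)
    (hi : ∀ j, v (H.coeff j) ≤ 1) (hd : 2 ≤ D * F.natDegree * H.natDegree)
    (hvD : v (D : L) = 1) (hve : v (F.natDegree : L) = 1) (hve2 : v (H.natDegree : L) = 1)
    (hv : Dom v F) {σ : Γ} {x y : L} (hx : PP (fs (H.comp F) D) x)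
    (hy : PP (fs (H.comp F) D) y) (hσ : σ ^ H.natDegree = v y) (hn : NM (fs (H.comp F) D) x y)
    {ζ : L} (hζ : ζ ^ D = 1) :
    ∃ m : ℕ, v (x - ζ * y) * (σ ^ (D * F.natDegree * H.natDegree - 1)) ^ m = v y := by
  rcases comp_step v hμ hF hH hi hd hvD hve hve2 hv hx hy hσ hζ with h | h | h
  · exact ⟨0, by rw [pow_zero, mul_one]; exact h⟩
  · exact ⟨1, by rw [pow_one, mul_comm]; exact h⟩
  · have h1 := comp_eq v hF hH hi hd hv hy hy.map
    obtain ⟨m, hm⟩ := comp_diff v hμ hF hH hi hd hvD hve hve2 hv hx.map hy.map (hσ.trans h1) hn.map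
    rw [← h1] at hm
    refine ⟨m + 1, ?_⟩
    refine Eq.trans ?_ hm
    rw [← h, pow_succ]
    ac_rfl

omit [DecidableEq L] in
/-- the ratio of two preperiodic points is near a root of unity of order `D e` -/
lemma comp_ratio_near (hF : F.Monic) (hH : H.Monic) (hi : ∀ j, v (H.coeff j) ≤ 1)
    (hd : 2 ≤ D * F.natDegree * H.natDegree) (hv : Dom v F) {x y : L}
    (hx : PP (fs (H.comp F) D) x) (hy : PP (fs (H.comp F) D) y) (hN2 : 2 ≤ D * F.natDegree) :
    v ((x / y) ^ (D * F.natDegree) - 1) < 1 := by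
  have hN : 0 < D * F.natDegree := Nat.pos_of_ne_zero (by intro h; rw [h, zero_mul] at hd; omega)
  have he : 0 < F.natDegree := Nat.pos_of_ne_zero (by intro h; rw [h, mul_zero] at hN; omega)
  have he2 : 0 < H.natDegree := Nat.pos_of_ne_zero (by intro h; rw [h, mul_zero] at hd; omega)
  have hD : 0 < D := Nat.pos_of_ne_zero (by intro h; rw [h, zero_mul] at hN; omega)
  have hxy := comp_eq v hF hH hi hd hv hx hy
  have hy1 := comp_one v hF hH hi hd hv hy
  have hyb := comp_bound v hF hH hi hd hv hy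
  have hy0 : v y ≠ 0 := ne_of_gt (lt_trans zero_lt_one hy1)
  have hyn : y ≠ 0 := (Valuation.ne_zero_iff v).1 hy0
  have hc0 : v (F.coeff 0) ≠ 0 := ne_of_gt (lt_trans zero_lt_one hv.1)
  -- the inner values are small
  have hinner : ∀ z : L, PP (fs (H.comp F) D) z → v (F.eval (z ^ D)) < v (F.coeff 0) := by
    intro z hz
    obtain ⟨h1, h2⟩ := comp_inner v hF hH hi hd hv hz
    rw [← comp_bound v hF hH hi hd hv hz]
    calc v (F.eval (z ^ D)) = v (F.eval (z ^ D)) ^ 1 := (pow_one _).symm
      _ ≤ v (F.eval (z ^ D)) ^ H.natDegree := pow_le_pow_right₀ h1.le he2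
      _ = v z ^ 1 := by rw [h2, pow_one]
      _ < v z ^ (D * F.natDegree) :=
        pow_lt_pow_right₀ (comp_one v hF hH hi hd hv hz) (by omega)
  have h1 : v (F.eval (x ^ D) - F.eval (y ^ D)) < v (F.coeff 0) :=
    lt_of_le_of_lt (Valuation.map_sub v _ _) (max_lt (hinner x hx) (hinner y hy))
  have h2 : v ((F.eval (x ^ D) - F.eval (y ^ D)) -
      (x ^ (D * F.natDegree) - y ^ (D * F.natDegree))) < v (F.coeff 0) := by
    have e : (F.eval (x ^ D) - F.eval (y ^ D)) -
        (x ^ (D * F.natDegree) - y ^ (D * F.natDegree)) =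
        ∑ j ∈ range F.natDegree, F.coeff j * ((x ^ D) ^ j - (y ^ D) ^ j) := by
      rw [eval_lead hF, eval_lead hF, pow_mul, pow_mul]
      have : ∑ j ∈ range F.natDegree, F.coeff j * ((x ^ D) ^ j - (y ^ D) ^ j) =
          ∑ j ∈ range F.natDegree, F.coeff j * (x ^ D) ^ j -
            ∑ j ∈ range F.natDegree, F.coeff j * (y ^ D) ^ j := by
        rw [← sum_sub_distrib]
        exact sum_congr rfl fun j _ => by ring
      rw [this]
      ring
    rw [e]
    refine Valuation.map_sum_lt v hc0 fun j hj => ?_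
    rw [mem_range] at hj
    rcases Nat.eq_zero_or_pos j with rfl | hj0
    · rw [pow_zero, pow_zero, sub_self, mul_zero, map_zero]
      exact zero_lt_iff.2 hc0
    rw [map_mul]
    have h3 : v ((x ^ D) ^ j - (y ^ D) ^ j) ≤ v y ^ (D * j) := by
      refine (Valuation.map_sub v _ _).trans ?_
      rw [← pow_mul, ← pow_mul, map_pow, map_pow, hxy, max_self]
    refine lt_of_pow_lt_pow_left₀ F.natDegree zero_le ?_
    have hp : 0 < (v y ^ (D * j)) ^ F.natDegree := zero_lt_iff.2 (pow_ne_zero _ (pow_ne_zero _ hy0))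
    calc (v (F.coeff j) * v ((x ^ D) ^ j - (y ^ D) ^ j)) ^ F.natDegree ≤
        (v (F.coeff j) * v y ^ (D * j)) ^ F.natDegree := by gcongr
      _ = v (F.coeff j) ^ F.natDegree * (v y ^ (D * j)) ^ F.natDegree := mul_pow _ _ _
      _ < v (F.coeff 0) ^ (F.natDegree - j) * (v y ^ (D * j)) ^ F.natDegree :=
          mul_lt_mul_of_pos_right (hv.2 j hj0 hj) hp
      _ = v (F.coeff 0) ^ F.natDegree := by
          have e2 : (v y ^ (D * j)) ^ F.natDegree = v (F.coeff 0) ^ j := by
            rw [← hyb, ← pow_mul, ← pow_mul]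
            congr 1
            ring
          rw [e2, ← pow_add, Nat.sub_add_cancel hj.le]
  have h3 : v (x ^ (D * F.natDegree) - y ^ (D * F.natDegree)) < v (F.coeff 0) := by
    have e : x ^ (D * F.natDegree) - y ^ (D * F.natDegree) =
        (F.eval (x ^ D) - F.eval (y ^ D)) - ((F.eval (x ^ D) - F.eval (y ^ D)) -
          (x ^ (D * F.natDegree) - y ^ (D * F.natDegree))) := by ring
    rw [e]
    exact lt_of_le_of_lt (Valuation.map_sub v _ _) (max_lt h1 h2)
  have e : (x / y) ^ (D * F.natDegree) - 1 =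
      (x ^ (D * F.natDegree) - y ^ (D * F.natDegree)) / y ^ (D * F.natDegree) := by
    rw [div_pow, sub_div, div_self (pow_ne_zero _ hyn)]
  rw [e, map_div₀, map_pow, hyb]
  exact (div_lt_one₀ (zero_lt_iff.2 hc0)).2 h3

end val

end Pool.Agent.Zk42.US
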