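import Pool.Agent.Zk42.UC.Loc2

/-! Local analysis of the preperiodic points of the polynomials `F (x ^ D)`. -/

set_option autoImplicit false

namespace Pool.Agent.Zk42.US

open Finset Polynomial
open Pool.Agent.Zk42.UC (PP Per NM fu common_period common_pp per_inj per_NM not_pp_of_incr v_zeta
  v_sub_le v_zeta_one v_zeta_sub mem_roots v_fu_sub prod_erase_le good_step)

/-- the polynomial map `x ↦ F (x ^ D)` -/
noncomputable def fs {L : Type*} [Field L] (F : L[X]) (D : ℕ) (x : L) : L := F.eval (x ^ D)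

/-- the quotient `(F (X) - F (Y)) / (X - Y)` -/
noncomputable def quo {L : Type*} [Field L] (F : L[X]) (X Y : L) : L :=
  ∑ j ∈ range (F.natDegree + 1), F.coeff j * ∑ i ∈ range j, X ^ i * Y ^ (j - 1 - i)

section field

variable {L : Type*} [Field L] {F : L[X]} {D : ℕ}

lemma quo_mul (X Y : L) : F.eval X - F.eval Y = quo F X Y * (X - Y) := by
  unfold quo
  rw [eval_eq_sum_range, eval_eq_sum_range, ← sum_sub_distrib, sum_mul]
  refine sum_congr rfl fun j _ => ?_
  rw [mul_assoc, (Commute.all X Y).geom_sum₂_mul, mul_sub]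

lemma quo_comm (X Y : L) : quo F X Y = quo F Y X := by
  unfold quo
  refine sum_congr rfl fun j _ => ?_
  congr 1
  rw [← sum_range_reflect]
  refine sum_congr rfl fun i hi => ?_
  rw [mem_range] at hi
  rw [mul_comm]
  congr 2
  omega

lemma fs_zeta {ζ : L} (hζ : ζ ^ D = 1) (x : L) : fs F D (ζ * x) = fs F D x := by
  unfold fs
  rw [mul_pow, hζ, one_mul]

/-- splitting off the leading term -/
lemma eval_lead (hF : F.Monic) (X : L) : F.eval X = ∑ j ∈ range F.natDegree, F.coeff j * X ^ j +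
    X ^ F.natDegree := by
  rw [eval_eq_sum_range, sum_range_succ, hF.coeff_natDegree, one_mul]

end field

section val

variable {L : Type*} [Field L] {Γ : Type*} [LinearOrderedCommGroupWithZero Γ] (v : Valuation L Γ)
  {F : L[X]} {D : ℕ} {μ : L}

/-- the value of a monic integral polynomial at a large point -/
lemma eval_large (hF : F.Monic) (hi : ∀ j, v (F.coeff j) ≤ 1) {X : L} (hX : 1 < v X) :
    v (F.eval X) = v X ^ F.natDegree := by
  rw [eval_lead hF]
  have h0 : v (X ^ F.natDegree) ≠ 0 := by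
    rw [map_pow]
    exact pow_ne_zero _ (ne_of_gt (lt_trans zero_lt_one hX))
  rw [Valuation.map_add_eq_of_lt_right v, map_pow]
  refine Valuation.map_sum_lt v h0 fun j hj => ?_
  rw [mem_range] at hj
  rw [map_mul, map_pow, map_pow]
  calc v (F.coeff j) * v X ^ j ≤ 1 * v X ^ j := by gcongr; exact hi j
    _ = v X ^ j := one_mul _
    _ < v X ^ F.natDegree := pow_lt_pow_right₀ hX hj

/-- good places -/
lemma good_bound (hF : F.Monic) (hi : ∀ j, v (F.coeff j) ≤ 1) (hd : 2 ≤ D * F.natDegree) {x : L}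
    (hx : PP (fs F D) x) : v x ≤ 1 := by
  by_contra hc
  push Not at hc
  have hD : D ≠ 0 := by
    rintro rfl
    omega
  refine not_pp_of_incr (fs F D) v (fun y => 1 < v y) ?_ hc hx
  intro y hy
  have h1 : v (fs F D y) = v y ^ (D * F.natDegree) := by
    unfold fs
    rw [eval_large v hF hi (by rw [map_pow]; exact one_lt_pow₀ hy hD), map_pow, ← pow_mul]
  have h2 : v y < v (fs F D y) := by
    rw [h1]
    calc v y = v y ^ 1 := (pow_one _).symm
      _ < _ := pow_lt_pow_right₀ hy (by omega)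
  exact ⟨hy.trans h2, h2⟩

lemma pow_le_one' {x : L} (hx : v x ≤ 1) (k : ℕ) : v (x ^ k) ≤ 1 := by
  rw [map_pow]
  exact _root_.pow_le_one' hx k

lemma quo_le (hi : ∀ j, v (F.coeff j) ≤ 1) {X Y : L} (hX : v X ≤ 1) (hY : v Y ≤ 1) :
    v (quo F X Y) ≤ 1 := by
  unfold quo
  refine Valuation.map_sum_le v fun j _ => ?_
  rw [map_mul]
  refine mul_le_one' (hi j) ?_
  refine Valuation.map_sum_le v fun i _ => ?_
  rw [map_mul]
  exact mul_le_one' (pow_le_one' v hX _) (pow_le_one' v hY _)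

/-- the quotient is continuous -/
lemma quo_congr (hi : ∀ j, v (F.coeff j) ≤ 1) {P Y W : L} (hP : v P ≤ 1) (hY : v Y ≤ 1)
    (hW : v W ≤ 1) : v (quo F P W - quo F Y W) ≤ v (P - Y) := by
  unfold quo
  rw [← sum_sub_distrib]
  refine Valuation.map_sum_le v fun j _ => ?_
  rw [← mul_sub, ← sum_sub_distrib, map_mul]
  have h1 : v (∑ i ∈ range j, (P ^ i * W ^ (j - 1 - i) - Y ^ i * W ^ (j - 1 - i))) ≤ v (P - Y) := by
    refine Valuation.map_sum_le v fun i _ => ?_
    rw [← sub_mul, map_mul, ← (Commute.all P Y).geom_sum₂_mul, map_mul]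
    have h2 : v (∑ k ∈ range i, P ^ k * Y ^ (i - 1 - k)) ≤ 1 := by
      refine Valuation.map_sum_le v fun k _ => ?_
      rw [map_mul]
      exact mul_le_one' (pow_le_one' v hP _) (pow_le_one' v hY _)
    calc v (∑ k ∈ range i, P ^ k * Y ^ (i - 1 - k)) * v (P - Y) * v (W ^ (j - 1 - i)) ≤
        1 * v (P - Y) * 1 := by gcongr; exact pow_le_one' v hW _
      _ = _ := by rw [one_mul, mul_one]
  calc v (F.coeff j) * _ ≤ 1 * v (P - Y) := by gcongr; exact hi j
    _ = _ := one_mul _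

variable [DecidableEq L]

lemma powsub_le (hμ : IsPrimitiveRoot μ D) (hD : 0 < D) {ζ : L} (hζ : ζ ^ D = 1) {x y : L}
    (hx : v x ≤ 1) (hy : v y ≤ 1) : v (x ^ D - y ^ D) ≤ v (x - ζ * y) := by
  have h := good_step v (a := (1 : L)) (b := 0) hμ hD hζ (x := x) (y := y)
    (by rw [map_one, one_mul]; exact _root_.pow_le_one' hx _)
    (by rw [map_one, one_mul]; exact _root_.pow_le_one' hy _)
  have e : fu (1 : L) 0 D x - fu 1 0 D y = x ^ D - y ^ D := by
    unfold Pool.Agent.Zk42.UC.fu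
    ring
  rwa [e] at h

lemma step_le (hμ : IsPrimitiveRoot μ D) (hD : 0 < D) (hi : ∀ j, v (F.coeff j) ≤ 1) {ζ : L}
    (hζ : ζ ^ D = 1) {x y : L} (hx : v x ≤ 1) (hy : v y ≤ 1) :
    v (fs F D x - fs F D y) ≤ v (x - ζ * y) := by
  unfold fs
  rw [quo_mul, map_mul]
  calc _ ≤ 1 * v (x - ζ * y) := by
        gcongr
        · exact quo_le v hi (pow_le_one' v hx _) (pow_le_one' v hy _)
        · exact powsub_le v hμ hD hζ hx hy
    _ = _ := one_mul _

lemma iter_le (hμ : IsPrimitiveRoot μ D) (hF : F.Monic) (hi : ∀ j, v (F.coeff j) ≤ 1)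
    (hd : 2 ≤ D * F.natDegree) {x y : L}
    (hx : PP (fs F D) x) (hy : PP (fs F D) y) (k : ℕ) :
    v ((fs F D)^[k] x - (fs F D)^[k] y) ≤ v (x - y) := by
  have hD : 0 < D := Nat.pos_of_ne_zero (by rintro rfl; omega)
  induction k with
  | zero => exact le_rfl
  | succ k ih =>
    rw [Function.iterate_succ_apply', Function.iterate_succ_apply']
    refine le_trans ?_ ih
    have := step_le v hμ hD hi (one_pow D)
      (good_bound v hF hi hd (hx.iter k)) (good_bound v hF hi hd (hy.iter k))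
    rwa [one_mul] at this

/-- periodic pairs at good places -/
lemma good_per (hμ : IsPrimitiveRoot μ D) (hF : F.Monic) (hi : ∀ j, v (F.coeff j) ≤ 1)
    (hd : 2 ≤ D * F.natDegree) {x y : L}
    (hx : Per (fs F D) x) (hy : Per (fs F D) y) (hne : x ≠ y) :
    v (quo F (x ^ D) (y ^ D)) = 1 ∧ ∀ ζ : L, ζ ^ D = 1 → ζ ≠ 1 → v (x - ζ * y) = 1 := by
  have hD : 0 < D := Nat.pos_of_ne_zero (by rintro rfl; omega)
  obtain ⟨N, hN, e1, e2⟩ := common_period hx hy
  have h1 : v (x - y) ≤ v (fs F D x - fs F D y) := by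
    have h2 := iter_le v hμ hF hi hd hx.map.pp hy.map.pp (N - 1)
    rw [← Function.iterate_succ_apply, ← Function.iterate_succ_apply, Nat.succ_eq_add_one,
      Nat.sub_add_cancel hN, e1, e2] at h2
    exact h2
  have h2 : v (fs F D x - fs F D y) ≤ v (x - y) := iter_le v hμ hF hi hd hx.pp hy.pp 1
  have h3 : v (fs F D x - fs F D y) = v (x - y) := le_antisymm h2 h1
  have hxb := good_bound v hF hi hd hx.pp
  have hyb := good_bound v hF hi hd hy.pp
  have h1mem : (1 : L) ∈ nthRootsFinset D (1 : L) := (mem_roots hD).2 (one_pow D)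
  have hfac : v (x ^ D - y ^ D) = ∏ ζ ∈ nthRootsFinset D (1 : L), v (x - ζ * y) := by
    rw [hμ.pow_sub_pow_eq_prod_sub_mul x y hD, map_prod]
  unfold fs at h3
  rw [quo_mul, map_mul, hfac, ← mul_prod_erase _ _ h1mem, one_mul] at h3
  set P := ∏ ζ' ∈ (nthRootsFinset D (1 : L)).erase 1, v (x - ζ' * y) with hP
  have hfle : ∀ ζ' : L, ζ' ^ D = 1 → v (x - ζ' * y) ≤ 1 := fun ζ' hζ' =>
    (v_sub_le v hD.ne' hζ' x y).trans (max_le hxb hyb)
  have hPle : P ≤ 1 := by
    apply prod_le_one'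
    intro ζ' hζ'
    rw [mem_erase, mem_roots hD] at hζ'
    exact hfle ζ' hζ'.2
  have hQle : v (quo F (x ^ D) (y ^ D)) ≤ 1 := quo_le v hi (pow_le_one' v hxb _) (pow_le_one' v hyb _)
  have hxy : v (x - y) ≠ 0 := (Valuation.ne_zero_iff v).2 (sub_ne_zero.2 hne)
  have h4 : v (quo F (x ^ D) (y ^ D)) * P = 1 := by
    apply mul_left_cancel₀ hxy
    rw [mul_one]
    calc v (x - y) * (v (quo F (x ^ D) (y ^ D)) * P) =
        v (quo F (x ^ D) (y ^ D)) * (v (x - y) * P) := by ac_rfl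
      _ = _ := h3
  refine ⟨?_, ?_⟩
  · refine le_antisymm hQle ?_
    rw [← h4]
    calc _ ≤ v (quo F (x ^ D) (y ^ D)) * 1 := by gcongr
      _ = _ := mul_one _
  · intro ζ hζ hζ1
    refine le_antisymm (hfle ζ hζ) ?_
    have hmem : ζ ∈ (nthRootsFinset D (1 : L)).erase 1 := mem_erase.2 ⟨hζ1, (mem_roots hD).2 hζ⟩
    have hP2 : P = v (x - ζ * y) * ∏ ζ' ∈ ((nthRootsFinset D (1 : L)).erase 1).erase ζ,
        v (x - ζ' * y) := by rw [hP, ← mul_prod_erase _ _ hmem]
    have hP3 : ∏ ζ' ∈ ((nthRootsFinset D (1 : L)).erase 1).erase ζ, v (x - ζ' * y) ≤ 1 := by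
      apply prod_le_one'
      intro ζ' hζ'
      rw [mem_erase, mem_erase, mem_roots hD] at hζ'
      exact hfle ζ' hζ'.2.2
    rw [← h4]
    calc v (quo F (x ^ D) (y ^ D)) * P ≤ 1 * (v (x - ζ * y) * 1) := by
          rw [hP2]
          gcongr
      _ = _ := by rw [one_mul, mul_one]

/-- tails at good places -/
lemma good_tail (hμ : IsPrimitiveRoot μ D) (hF : F.Monic) (hi : ∀ j, v (F.coeff j) ≤ 1)
    (hd : 2 ≤ D * F.natDegree) {x y w : L} (hx : PP (fs F D) x) (hy : Per (fs F D) y)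
    (hw : Per (fs F D) w) {k : ℕ} (hk : 1 ≤ k) (h0 : (fs F D)^[k] x ≠ w)
    (h1 : fs F D ((fs F D)^[k] x) = fs F D w) (h2 : (fs F D)^[k] y ≠ w) {ζ : L} (hζ : ζ ^ D = 1) :
    v (x - ζ * y) = 1 := by
  have hD : 0 < D := Nat.pos_of_ne_zero (by rintro rfl; omega)
  have hxb := good_bound v hF hi hd hx
  have hyb := good_bound v hF hi hd hy.pp
  set p := (fs F D)^[k] x with hp
  set y' := (fs F D)^[k] y with hy'
  have hpb : v p ≤ 1 := good_bound v hF hi hd (hx.iter k)
  have hy'P : Per (fs F D) y' := hy.iter k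
  have hy'b : v y' ≤ 1 := good_bound v hF hi hd hy'P.pp
  have hwb : v w ≤ 1 := good_bound v hF hi hd hw.pp
  -- the claim
  have key : v (p - y') = 1 := by
    have hle : v (p - y') ≤ 1 := (Valuation.map_sub v _ _).trans (max_le hpb hy'b)
    by_cases hPW : p ^ D = w ^ D
    · have hw0 : w ≠ 0 := by
        rintro rfl
        rw [zero_pow hD.ne'] at hPW
        exact h0 ((pow_eq_zero_iff hD.ne').1 hPW)
      have hz : (p / w) ^ D = 1 := by rw [div_pow, hPW, div_self (pow_ne_zero _ hw0)]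
      have hz1 : p / w ≠ 1 := fun h => h0 ((div_eq_one_iff_eq hw0).1 h)
      have hz0 : p / w ≠ 0 := by
        intro h
        rw [h, zero_pow hD.ne'] at hz
        exact zero_ne_one hz
      obtain ⟨-, g⟩ := good_per v hμ hF hi hd hw hy'P (Ne.symm h2)
      have e : p - y' = (p / w) * (w - (p / w)⁻¹ * y') := by
        rw [mul_sub, div_mul_cancel₀ _ hw0, ← mul_assoc, mul_inv_cancel₀ hz0, one_mul]
      rw [e, map_mul, v_zeta v hD.ne' hz, one_mul]
      exact g _ (by rw [inv_pow, hz, inv_one]) (fun h => hz1 (inv_eq_one.1 h))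
    · by_contra hne
      have hlt : v (p - y') < 1 := lt_of_le_of_ne hle hne
      have hQ : quo F (p ^ D) (w ^ D) = 0 := by
        have h3 := quo_mul (F := F) (p ^ D) (w ^ D)
        have h4 : F.eval (p ^ D) = F.eval (w ^ D) := h1
        rw [h4, sub_self] at h3
        exact (mul_eq_zero.1 h3.symm).resolve_right (sub_ne_zero.2 hPW)
      obtain ⟨g, -⟩ := good_per v hμ hF hi hd hy'P hw h2
      have h5 := quo_congr v hi (pow_le_one' v hpb D) (pow_le_one' v hy'b D) (pow_le_one' v hwb D)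
      rw [hQ, zero_sub, Valuation.map_neg, g] at h5
      have h6 : v (p ^ D - y' ^ D) ≤ v (p - y') := by
        have := powsub_le v hμ hD (one_pow D) hpb hy'b
        rwa [one_mul] at this
      exact absurd (h5.trans h6) (not_le.2 hlt)
  refine le_antisymm ((v_sub_le v hD.ne' hζ x y).trans (max_le hxb hyb)) ?_
  refine le_trans ?_ (step_le v hμ hD hi hζ hxb hyb)
  have s2 := iter_le v hμ hF hi hd hx.map hy.pp.map (k - 1)
  rw [← Function.iterate_succ_apply, ← Function.iterate_succ_apply, Nat.succ_eq_add_one,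
    Nat.sub_add_cancel hk] at s2
  rw [← key]
  exact s2

end val

end Pool.Agent.Zk42.US
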