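import Pool.Agent.Zk42.US.Bad
import Pool.Agent.Zk42.UC.Desc

/-! The polynomials `F (x ^ D)` over number fields. -/

set_option autoImplicit false

namespace Pool.Agent.Zk42.US

open IsDedekindDomain NumberField Polynomial Finset
open scoped WithZero
open Pool.Agent.Zk42.UC (PP Per NM common_period common_pp per_inj per_NM SelN Rset places
  finite_bad sel3 sel6 rfin3 rfin6 Good ratio_mem)

/-- a preperiodic point which is not periodic enters the set of the periodic points -/
lemma exists_tail {α : Type*} {f : α → α} {u : α} (hu : PP f u) (hnp : ¬ Per f u) :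
    ∃ (k : ℕ) (w : α), Per f w ∧ f (f^[k] u) = f w ∧ ¬ Per f (f^[k] u) := by
  classical
  have hex := hu.exists_per
  set j := Nat.find hex with hj
  have hjs : Per f (f^[j] u) := Nat.find_spec hex
  have hj0 : j ≠ 0 := by
    intro h0
    rw [h0] at hjs
    exact hnp hjs
  obtain ⟨k, hk⟩ : ∃ k, j = k + 1 := ⟨j - 1, by omega⟩
  have hknot : ¬ Per f (f^[k] u) := Nat.find_min hex (by omega)
  rw [hk] at hjs
  obtain ⟨N, hN, hper⟩ := id hjs
  refine ⟨k, f^[N - 1] (f^[k + 1] u), hjs.iter _, ?_, hknot⟩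
  rw [← Function.iterate_succ_apply' f (N - 1), Nat.succ_eq_add_one, Nat.sub_add_cancel hN, hper,
    Function.iterate_succ_apply']

/-- the points running into the tail never meet the other cycles -/
lemma tail_NM {α : Type*} {f : α → α} {x y w : α} {k : ℕ} (hy : Per f y) (hw : Per f w)
    (h1 : f (f^[k] x) = f w) (hnp : ¬ Per f (f^[k] x)) (h2 : f^[k] y ≠ w) : NM f x y := by
  intro j hj
  rcases Nat.lt_or_ge k j with hkj | hkj
  · obtain ⟨i, rfl⟩ : ∃ i, j = i + 1 + k := ⟨j - k - 1, by omega⟩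
    have e1 : f^[i + 1 + k] x = f^[i + 1] w := by
      rw [Function.iterate_add_apply f (i + 1) k, Function.iterate_succ_apply, h1,
        Function.iterate_succ_apply]
    rw [e1, Function.iterate_add_apply f (i + 1) k] at hj
    exact h2 (per_inj (hy.iter k) hw hj.symm)
  · apply hnp
    have e1 : f^[k - j] (f^[j] x) = f^[k - j] (f^[j] y) := by rw [hj]
    rw [← Function.iterate_add_apply, ← Function.iterate_add_apply, Nat.sub_add_cancel hkj] at e1
    rw [e1]
    exact hy.iter k

/-- the condition at the places outside `S` -/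
def Adm {K : Type} [Field K] [NumberField K] (S : Set (HeightOneSpectrum (𝓞 K))) (F : K[X]) :
    Prop :=
  ∀ v : HeightOneSpectrum (𝓞 K), v ∉ S →
    (∀ j, v.valuation K (F.coeff j) ≤ 1) ∨ Dom (v.valuation K) F

section main

variable {L : Type} [Field L] [NumberField L] [DecidableEq L] {D n : ℕ} {μ : L} {F : L[X]}
  {S : Set (HeightOneSpectrum (𝓞 L))} {T : Finset L}

/-- two points which never meet, with equal factors at the good places -/
lemma ratio (hdS : ∀ v ∉ S, v.valuation L (D : L) = 1 ∧ v.valuation L (F.natDegree : L) = 1)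
    (hT : Good S n T) (hμ : IsPrimitiveRoot μ D) (hF : F.Monic) (hd : 2 ≤ D * F.natDegree)
    (hn : n ∣ D * F.natDegree - 1) (hA : Adm S F) {x y : L} (hx : PP (fs F D) x)
    (hy : PP (fs F D) y) (hNM : NM (fs F D) x y) (hy0 : y ≠ 0)
    (hgood : ∀ v : HeightOneSpectrum (𝓞 L), (∀ j, v.valuation L (F.coeff j) ≤ 1) →
      ∀ ζ : L, ζ ^ D = 1 → ζ ≠ 1 → v.valuation L (x - ζ * y) = 1) :
    x / y ∈ Rset L D n T := by
  refine ratio_mem hT ?_ hy0 ?_
  · intro h
    apply hNM 1
    show fs F D x = fs F D y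
    unfold fs
    rw [h]
  intro v hv ζ₁ ζ₂ h₁ h₂ n₁ n₂
  rcases hA v hv with hi | hD
  · refine ⟨1, ?_⟩
    rw [hgood v hi ζ₁ h₁ n₁, hgood v hi ζ₂ h₂ n₂, one_pow, mul_one]
  · obtain ⟨hvD, hve⟩ := hdS v hv
    obtain ⟨m₁, e₁⟩ := bad_factor (v.valuation L) hμ hF hd hvD hve hD hx hy hNM h₁
    obtain ⟨m₂, e₂⟩ := bad_factor (v.valuation L) hμ hF hd hvD hve hD hx hy hNM h₂
    obtain ⟨k, hk⟩ := hn
    have hy1 := bad_one (v.valuation L) hF hd hD hy
    exact Pool.Agent.Zk42.UC.bad_ratio (h := v.valuation L y ^ k) (n := n) e₁ e₂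
      (by rw [hk, ← pow_mul, Nat.mul_comm])
      (pow_ne_zero _ (ne_of_gt (lt_trans zero_lt_one hy1)))

/-- two different periodic points -/
lemma per_ratio (hdS : ∀ v ∉ S, v.valuation L (D : L) = 1 ∧ v.valuation L (F.natDegree : L) = 1)
    (hT : Good S n T) (hμ : IsPrimitiveRoot μ D) (hF : F.Monic) (hd : 2 ≤ D * F.natDegree)
    (hn : n ∣ D * F.natDegree - 1) (hA : Adm S F) {x y : L} (hx : Per (fs F D) x)
    (hy : Per (fs F D) y) (hne : x ≠ y) (hy0 : y ≠ 0) : x / y ∈ Rset L D n T :=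
  ratio hdS hT hμ hF hd hn hA hx.pp hy.pp (per_NM hx hy hne) hy0
    fun v hi => (good_per (v.valuation L) hμ hF hi hd hx hy hne).2

/-- a tail and a periodic point -/
lemma tail_ratio (hdS : ∀ v ∉ S, v.valuation L (D : L) = 1 ∧ v.valuation L (F.natDegree : L) = 1)
    (hT : Good S n T) (hμ : IsPrimitiveRoot μ D) (hF : F.Monic) (hd : 2 ≤ D * F.natDegree)
    (hn : n ∣ D * F.natDegree - 1) (hA : Adm S F) {x y w : L} (hx : PP (fs F D) x)
    (hy : Per (fs F D) y) (hw : Per (fs F D) w) {k : ℕ} (hk : 1 ≤ k)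
    (h1 : fs F D ((fs F D)^[k] x) = fs F D w) (hnp : ¬ Per (fs F D) ((fs F D)^[k] x))
    (h2 : (fs F D)^[k] y ≠ w) (hy0 : y ≠ 0) : x / y ∈ Rset L D n T :=
  ratio hdS hT hμ hF hd hn hA hx hy.pp (tail_NM hy hw h1 hnp h2) hy0
    fun v hi _ hζ _ => good_tail (v.valuation L) hμ hF hi hd hx hy hw hk
      (fun h => hnp (h ▸ hw)) h1 h2 hζ

end main

section count

variable {K : Type} [Field K] [DecidableEq K] {F : K[X]} {D : ℕ}

/-- the number of the inverse images -/
lemma card_pre (_hF : F.Monic) (hd : 1 ≤ D * F.natDegree) (B X : Finset K)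
    (h : ∀ x ∈ X, fs F D x ∈ B) : X.card ≤ D * F.natDegree * B.card := by
  have hp : ∀ b : K, (F.comp (Polynomial.X ^ D) - C b : K[X]) ≠ 0 ∧
      (F.comp (Polynomial.X ^ D) - C b : K[X]).natDegree = D * F.natDegree := by
    intro b
    have h1 : (F.comp (Polynomial.X ^ D) : K[X]).natDegree = D * F.natDegree := by
      rw [natDegree_comp, natDegree_X_pow, Nat.mul_comm]
    have h2 : (F.comp (Polynomial.X ^ D) - C b : K[X]).natDegree = D * F.natDegree := by
      rw [natDegree_sub_C, h1]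
    refine ⟨?_, h2⟩
    intro h0
    rw [h0, natDegree_zero] at h2
    omega
  have hcard : ∀ b ∈ B, (X.filter fun x => fs F D x = b).card ≤ D * F.natDegree := by
    intro b _
    have hsub : (X.filter fun x => fs F D x = b) ⊆ (F.comp (Polynomial.X ^ D) - C b : K[X]).roots.toFinset := by
      intro x hx
      rw [mem_filter] at hx
      rw [Multiset.mem_toFinset, mem_roots (hp b).1, IsRoot.def, eval_sub, eval_comp, eval_pow,
        eval_X, eval_C, sub_eq_zero]
      exact hx.2
    refine (card_le_card hsub).trans ((Multiset.toFinset_card_le _).trans ?_)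
    refine (card_roots' _).trans ?_
    rw [(hp b).2]
  rw [card_eq_sum_card_fiberwise (f := fs F D) (t := B) (fun x hx => h x hx), Nat.mul_comm]
  exact (sum_le_card_nsmul B _ _ hcard).trans (by rw [smul_eq_mul])

/-- counting -/
lemma count (hF : F.Monic) (hd : 1 ≤ D * F.natDegree) (R : Finset K)
    (hper : ∀ x y : K, Per (fs F D) x → Per (fs F D) y → x ≠ y → y ≠ 0 → x / y ∈ R)
    (htail : ∀ (x y w : K) (k : ℕ), PP (fs F D) x → Per (fs F D) y → Per (fs F D) w → 1 ≤ k →
      fs F D ((fs F D)^[k] x) = fs F D w → ¬ Per (fs F D) ((fs F D)^[k] x) →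
      (fs F D)^[k] y ≠ w → y ≠ 0 → x / y ∈ R) :
    (∀ X : Finset K, (∀ x ∈ X, Per (fs F D) x) → X.card ≤ R.card + 1) ∧
    ((∃ Y : Finset K, (∀ y ∈ Y, Per (fs F D) y) ∧ 3 ≤ Y.card) ∨
      (∃ y, Per (fs F D) y ∧ fs F D y ≠ y) →
      ∀ X : Finset K, (∀ x ∈ X, PP (fs F D) x) → X.card ≤
        (D * F.natDegree + 1) ^ 2 * (R.card + 1) + (D * F.natDegree + 2) * R.card) := by
  classical
  set N := D * F.natDegree with hN
  have hP : ∀ X : Finset K, (∀ x ∈ X, Per (fs F D) x) → X.card ≤ R.card + 1 := by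
    intro X hX
    by_cases h0 : ∃ y ∈ X, y ≠ 0
    · obtain ⟨y0, hy0, hy00⟩ := h0
      have hsub : X ⊆ insert y0 (R.image (fun t => t * y0)) := by
        intro x hx
        by_cases hxy : x = y0
        · rw [hxy]; exact mem_insert_self _ _
        · refine mem_insert_of_mem (mem_image.2 ⟨x / y0, ?_, div_mul_cancel₀ _ hy00⟩)
          exact hper x y0 (hX x hx) (hX y0 hy0) hxy hy00
      refine (card_le_card hsub).trans ((card_insert_le _ _).trans ?_)
      have := card_image_le (s := R) (f := fun t => t * y0)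
      omega
    · push Not at h0
      have hsub : X ⊆ {0} := fun x hx => mem_singleton.2 (h0 x hx)
      have := card_le_card hsub
      rw [card_singleton] at this
      omega
  refine ⟨hP, ?_⟩
  intro hyp X hX
  -- the classes of points
  set A0 := X.filter fun x => Per (fs F D) x with hA0
  set A1 := X.filter fun x => ∃ w, Per (fs F D) w ∧ fs F D x = fs F D w with hA1
  set A2 := X.filter fun x => ∃ w, Per (fs F D) w ∧ fs F D (fs F D x) = fs F D w with hA2
  have c0 : A0.card ≤ R.card + 1 := hP A0 fun x hx => (mem_filter.1 hx).2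
  have c1 : A1.card ≤ N * (R.card + 1) := by
    refine (card_pre hF hd (A1.image (fs F D)) A1 fun x hx => mem_image_of_mem _ hx).trans ?_
    refine Nat.mul_le_mul_left _ (hP _ fun x hx => ?_)
    obtain ⟨u, hu, rfl⟩ := mem_image.1 hx
    obtain ⟨w, hw, h⟩ := (mem_filter.1 hu).2
    rw [h]
    exact hw.map
  have c2 : A2.card ≤ N * (N * (R.card + 1)) := by
    refine (card_pre hF hd (A2.image (fs F D)) A2 fun x hx => mem_image_of_mem _ hx).trans ?_
    refine Nat.mul_le_mul_left _ ?_
    refine (card_pre hF hd ((A2.image (fs F D)).image (fs F D)) _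
      fun x hx => mem_image_of_mem _ hx).trans ?_
    refine Nat.mul_le_mul_left _ (hP _ fun x hx => ?_)
    obtain ⟨u, hu, rfl⟩ := mem_image.1 hx
    obtain ⟨u', hu', rfl⟩ := mem_image.1 hu
    obtain ⟨w, hw, h⟩ := (mem_filter.1 hu').2
    rw [h]
    exact hw.map
  by_cases htwo : ∃ y₁ y₂ : K, Per (fs F D) y₁ ∧ Per (fs F D) y₂ ∧ y₁ ≠ y₂ ∧ y₁ ≠ 0 ∧ y₂ ≠ 0
  · obtain ⟨y₁, y₂, h₁, h₂, hne, h₁0, h₂0⟩ := htwo
    have hsub : X ⊆ ((A0 ∪ A1) ∪ R.image (fun t => t * y₁)) ∪ R.image (fun t => t * y₂) := by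
      intro x hx
      by_cases hp : Per (fs F D) x
      · exact mem_union_left _ (mem_union_left _ (mem_union_left _ (mem_filter.2 ⟨hx, hp⟩)))
      obtain ⟨k, w, hw, hk, hnp⟩ := exists_tail (hX x hx) hp
      rcases Nat.eq_zero_or_pos k with rfl | hk0
      · exact mem_union_left _ (mem_union_left _ (mem_union_right _
          (mem_filter.2 ⟨hx, w, hw, hk⟩)))
      by_cases h : (fs F D)^[k] y₁ = w
      · refine mem_union_right _ (mem_image.2 ⟨x / y₂, ?_, div_mul_cancel₀ _ h₂0⟩)
        exact htail x y₂ w k (hX x hx) h₂ hw hk0 hk hnp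
          (fun h' => hne (per_inj h₁ h₂ (h.trans h'.symm))) h₂0
      · exact mem_union_left _ (mem_union_right _ (mem_image.2 ⟨x / y₁,
          htail x y₁ w k (hX x hx) h₁ hw hk0 hk hnp h h₁0, div_mul_cancel₀ _ h₁0⟩))
    have d1 := card_le_card hsub
    have d2 := card_union_le ((A0 ∪ A1) ∪ R.image (fun t => t * y₁)) (R.image (fun t => t * y₂))
    have d3 := card_union_le (A0 ∪ A1) (R.image (fun t => t * y₁))
    have d4 := card_union_le A0 A1
    have d5 := card_image_le (s := R) (f := fun t => t * y₁)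
    have d6 := card_image_le (s := R) (f := fun t => t * y₂)
    nlinarith [Nat.zero_le (N * N * (R.card + 1)), Nat.zero_le (N * R.card), Nat.zero_le (N * (R.card + 1))]
  -- a cycle `0 ↔ y`
  obtain ⟨y, hy, hy0, hfy, hf0⟩ : ∃ y : K, Per (fs F D) y ∧ y ≠ 0 ∧ fs F D y = 0 ∧
      fs F D 0 = y := by
    push Not at htwo
    rcases hyp with ⟨Y, hY, hY3⟩ | ⟨y, hy, hyy⟩
    · exfalso
      have h1 : 2 ≤ (Y.erase 0).card := by
        have := pred_card_le_card_erase (s := Y) (a := (0 : K))
        omega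
      obtain ⟨a, ha, b, hb, hab⟩ := one_lt_card.1 (by omega : 1 < (Y.erase 0).card)
      rw [mem_erase] at ha hb
      exact hb.1 (htwo a b (hY a ha.2) (hY b hb.2) hab ha.1)
    · by_cases h0 : y = 0
      · subst h0
        refine ⟨fs F D 0, hy.map, hyy, ?_, rfl⟩
        by_contra h
        have h1 := htwo _ _ hy.map hy.map.map
        by_cases h2 : fs F D 0 = fs F D (fs F D 0)
        · exact hyy (per_inj (k := 1) hy.map hy h2.symm)
        · exact h (h1 h2 hyy)
      · have h1 : fs F D y = 0 := htwo _ _ hy hy.map (Ne.symm hyy) h0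
        refine ⟨y, hy, h0, h1, ?_⟩
        by_contra h
        have h0P : Per (fs F D) (0 : K) := h1 ▸ hy.map
        have h3 : fs F D (0 : K) ≠ 0 := by
          intro h4
          exact h0 (per_inj (k := 1) hy h0P (h1.trans h4.symm))
        exact h3 (htwo y _ hy h0P.map (Ne.symm h) h0)
  have h00 : Per (fs F D) (0 : K) := hfy ▸ hy.map
  set A4 := X.filter fun x => fs F D x / y ∈ R with hA4
  have c4 : A4.card ≤ N * R.card := by
    refine (card_pre hF hd (A4.image (fs F D)) A4 fun x hx => mem_image_of_mem _ hx).trans ?_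
    refine Nat.mul_le_mul_left _ ?_
    refine (card_le_card (t := R.image (fun t => t * y)) ?_).trans card_image_le
    intro x hx
    obtain ⟨u, hu, rfl⟩ := mem_image.1 hx
    exact mem_image.2 ⟨_, (mem_filter.1 hu).2, div_mul_cancel₀ _ hy0⟩
  have hsub : X ⊆ (((A0 ∪ A1) ∪ A2) ∪ R.image (fun t => t * y)) ∪ A4 := by
    intro x hx
    by_cases hp : Per (fs F D) x
    · exact mem_union_left _ (mem_union_left _ (mem_union_left _ (mem_union_left _
        (mem_filter.2 ⟨hx, hp⟩))))
    obtain ⟨k, w, hw, hk, hnp⟩ := exists_tail (hX x hx) hp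
    rcases Nat.eq_zero_or_pos k with rfl | hk0
    · exact mem_union_left _ (mem_union_left _ (mem_union_left _ (mem_union_right _
        (mem_filter.2 ⟨hx, w, hw, hk⟩))))
    by_cases h : (fs F D)^[k] y = w
    · obtain ⟨j, rfl⟩ : ∃ j, k = j + 1 := ⟨k - 1, by omega⟩
      rw [Function.iterate_succ_apply] at hk hnp h
      rcases Nat.eq_zero_or_pos j with rfl | hj
      · exact mem_union_left _ (mem_union_left _ (mem_union_right _
          (mem_filter.2 ⟨hx, w, hw, hk⟩)))
      · refine mem_union_right _ (mem_filter.2 ⟨hx, ?_⟩)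
        refine htail _ y w j (hX x hx).map hy hw hj hk hnp ?_ hy0
        intro h'
        have h1 : fs F D y = y := per_inj hy.map hy (h.trans h'.symm)
        rw [hfy] at h1
        exact hy0 h1.symm
    · exact mem_union_left _ (mem_union_right _ (mem_image.2 ⟨x / y,
        htail x y w k (hX x hx) hy hw hk0 hk hnp h hy0, div_mul_cancel₀ _ hy0⟩))
  have d1 := card_le_card hsub
  have d2 := card_union_le (((A0 ∪ A1) ∪ A2) ∪ R.image (fun t => t * y)) A4
  have d3 := card_union_le ((A0 ∪ A1) ∪ A2) (R.image (fun t => t * y))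
  have d4 := card_union_le (A0 ∪ A1) A2
  have d5 := card_union_le A0 A1
  have d6 := card_image_le (s := R) (f := fun t => t * y)
  nlinarith [Nat.zero_le (N * N * (R.card + 1)), Nat.zero_le (N * R.card), Nat.zero_le (N * (R.card + 1))]

end count

section up

variable {K L : Type} [Field K] [Field L] [Algebra K L] {F : K[X]} {D : ℕ}

lemma fs_up (x : K) : algebraMap K L (fs F D x) =
    fs (F.map (algebraMap K L)) D (algebraMap K L x) := by
  unfold fs
  rw [← map_pow, eval_map_apply]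

lemma iter_up (k : ℕ) (x : K) : algebraMap K L ((fs F D)^[k] x) =
    (fs (F.map (algebraMap K L)) D)^[k] (algebraMap K L x) := by
  induction k generalizing x with
  | zero => rfl
  | succ k ih =>
    rw [Function.iterate_succ_apply, Function.iterate_succ_apply, ih, fs_up]

lemma PP_up {x : K} (h : PP (fs F D) x) :
    PP (fs (F.map (algebraMap K L)) D) (algebraMap K L x) := by
  obtain ⟨i, j, hij, he⟩ := h
  exact ⟨i, j, hij, by rw [← iter_up, ← iter_up, he]⟩

lemma Per_up {x : K} : Per (fs (F.map (algebraMap K L)) D) (algebraMap K L x) ↔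
    Per (fs F D) x := by
  constructor
  · rintro ⟨n, hn, he⟩
    exact ⟨n, hn, (algebraMap K L).injective (by rw [iter_up, he])⟩
  · rintro ⟨n, hn, he⟩
    exact ⟨n, hn, by rw [← iter_up, he]⟩

end up

/-- the finite set of ratios over an arbitrary number field -/
theorem ratios {n D e : ℕ} (hsel : SelN n) (hd : 2 ≤ D * e) (hn : n ∣ D * e - 1)
    (hfin : ∀ (L : Type) [Field L] [NumberField L] (μ : L), IsPrimitiveRoot μ D → ∀ T : Finset L,
      (∀ t ∈ T, t ≠ 0) → (Rset L D n T).Finite)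
    (K : Type) [Field K] [NumberField K] (S : Set (HeightOneSpectrum (𝓞 K))) (hS : S.Finite) :
    ∃ R : Finset K, (∀ ρ ∈ R, ρ ^ D ≠ 1) ∧ ∀ F : K[X], F.Monic → F.natDegree = e → Adm S F →
      (∀ x y : K, Per (fs F D) x → Per (fs F D) y → x ≠ y → y ≠ 0 → x / y ∈ R) ∧
      (∀ (x y w : K) (k : ℕ), PP (fs F D) x → Per (fs F D) y → Per (fs F D) w → 1 ≤ k →
        fs F D ((fs F D)^[k] x) = fs F D w → ¬ Per (fs F D) ((fs F D)^[k] x) →
        (fs F D)^[k] y ≠ w → y ≠ 0 → x / y ∈ R) := by
  classical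
  have hD : 0 < D := Nat.pos_of_ne_zero (by rintro rfl; omega)
  have he : 0 < e := Nat.pos_of_ne_zero (by rintro rfl; omega)
  have hne : NeZero D := ⟨hD.ne'⟩
  let L := CyclotomicField D K
  have hμ : IsPrimitiveRoot (IsCyclotomicExtension.zeta D K L) D :=
    IsCyclotomicExtension.zeta_spec D K L
  obtain ⟨SL, hSLfin, hout⟩ := places K L S hS (D * e) (by positivity)
  obtain ⟨T, hT0, hT⟩ := hsel L SL hSLfin
  have hinj : Function.Injective (algebraMap K L) := (algebraMap K L).injective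
  have hdS : ∀ w ∉ SL, w.valuation L ((D : ℕ) : L) = 1 ∧ w.valuation L ((e : ℕ) : L) = 1 := by
    intro w hw
    have h1 := (hout w hw).1
    rw [Nat.cast_mul, map_mul] at h1
    have h2 : w.valuation L ((D : ℕ) : L) ≤ 1 := Pool.Agent.Zk42.UC.val_nat_le w D
    have h3 : w.valuation L ((e : ℕ) : L) ≤ 1 := Pool.Agent.Zk42.UC.val_nat_le w e
    constructor
    · refine le_antisymm h2 ?_
      rw [← h1]
      calc _ ≤ w.valuation L ((D : ℕ) : L) * 1 := by gcongr
        _ = _ := mul_one _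
    · refine le_antisymm h3 ?_
      rw [← h1]
      calc _ ≤ 1 * w.valuation L ((e : ℕ) : L) := by gcongr
        _ = _ := one_mul _
  have hRfin : ((algebraMap K L) ⁻¹' (Rset L D n T)).Finite :=
    (hfin L _ hμ T hT0).preimage hinj.injOn
  refine ⟨hRfin.toFinset, ?_, ?_⟩
  · intro ρ hρ h1
    rw [Set.Finite.mem_toFinset] at hρ
    apply hρ.1
    rw [← map_pow, h1, map_one]
  intro F hF hFe hA
  have hF' : (F.map (algebraMap K L)).Monic := hF.map _
  have hdeg : (F.map (algebraMap K L)).natDegree = e := by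
    rw [natDegree_map, hFe]
  have hA' : Adm SL (F.map (algebraMap K L)) := by
    intro w hw
    obtain ⟨-, v, ε, hε, hvS, -, hval⟩ := hout w hw
    rcases hA v hvS with hi | ⟨h1, h2⟩
    · left
      intro j
      rw [coeff_map, hval]
      exact _root_.pow_le_one' (hi j) _
    · right
      refine ⟨?_, ?_⟩
      · rw [coeff_map, hval]
        exact one_lt_pow₀ h1 hε
      · intro j hj0 hj
        rw [hdeg] at hj ⊢
        rw [hFe] at h2
        rw [coeff_map, coeff_map, hval, hval, ← pow_mul, ← pow_mul, mul_comm ε, mul_comm ε,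
          pow_mul, pow_mul]
        exact pow_lt_pow_left₀ (h2 j hj0 hj) zero_le hε
  have hdS' : ∀ w ∉ SL, w.valuation L ((D : ℕ) : L) = 1 ∧
      w.valuation L (((F.map (algebraMap K L)).natDegree : ℕ) : L) = 1 := by
    rw [hdeg]
    exact hdS
  have hd' : 2 ≤ D * (F.map (algebraMap K L)).natDegree := by rw [hdeg]; exact hd
  have hn' : n ∣ D * (F.map (algebraMap K L)).natDegree - 1 := by rw [hdeg]; exact hn
  refine ⟨?_, ?_⟩
  · intro x y hx hy hxy hy0
    rw [Set.Finite.mem_toFinset, Set.mem_preimage, map_div₀]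
    exact per_ratio hdS' hT hμ hF' hd' hn' hA' (Per_up.2 hx) (Per_up.2 hy)
      (fun h => hxy (hinj h)) (fun h => hy0 ((map_eq_zero (algebraMap K L)).1 h))
  · intro x y w k hx hy hw hk h1 hnp h2 hy0
    rw [Set.Finite.mem_toFinset, Set.mem_preimage, map_div₀]
    refine tail_ratio (w := algebraMap K L w) hdS' hT hμ hF' hd' hn' hA' (PP_up hx)
      (Per_up.2 hy) (Per_up.2 hw) hk ?_ ?_ ?_ (fun h => hy0 ((map_eq_zero (algebraMap K L)).1 h))
    · rw [← iter_up, ← fs_up, h1, fs_up]
    · rw [← iter_up, Per_up]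
      exact hnp
    · rw [← iter_up]
      exact fun h => h2 (hinj h)

end Pool.Agent.Zk42.US
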