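import Pool.Agent.Zk42.US.Comp
import Pool.Agent.Zk42.US.Main

/-! The polynomials `H (F (x ^ D))` over number fields. -/

set_option autoImplicit false

namespace Pool.Agent.Zk42.US

open IsDedekindDomain NumberField Polynomial Finset
open scoped WithZero
open Pool.Agent.Zk42.UC (PP Per NM common_period common_pp per_inj per_NM SelN Rset places
  finite_bad sel3 sel6 rfin3 rfin6 Good ratio_mem)

section integral

variable {L : Type*} [Field L] {Γ : Type*} [LinearOrderedCommGroupWithZero Γ] (v : Valuation L Γ)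

lemma int_mul {F G : L[X]} (hF : ∀ j, v (F.coeff j) ≤ 1) (hG : ∀ j, v (G.coeff j) ≤ 1) (j : ℕ) :
    v ((F * G).coeff j) ≤ 1 := by
  rw [coeff_mul]
  refine Valuation.map_sum_le v fun p _ => ?_
  rw [map_mul]
  exact mul_le_one' (hF _) (hG _)

lemma int_pow {F : L[X]} (hF : ∀ j, v (F.coeff j) ≤ 1) (k : ℕ) : ∀ j, v ((F ^ k).coeff j) ≤ 1 := by
  induction k with
  | zero =>
    intro j
    rw [pow_zero, coeff_one]
    split_ifs
    · rw [map_one]
    · rw [map_zero]; exact zero_le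
  | succ k ih =>
    intro j
    rw [pow_succ]
    exact int_mul v ih hF j

lemma int_comp {F H : L[X]} (hF : ∀ j, v (F.coeff j) ≤ 1) (hH : ∀ j, v (H.coeff j) ≤ 1) (j : ℕ) :
    v ((H.comp F).coeff j) ≤ 1 := by
  rw [comp_eq_sum_left, sum_def, finsetSum_coeff]
  refine Valuation.map_sum_le v fun i _ => ?_
  rw [coeff_C_mul, map_mul]
  exact mul_le_one' (hH i) (int_pow v hF i j)

end integral

/-- the condition at the places outside `S` -/
def Adm2 {K : Type} [Field K] [NumberField K] (S : Set (HeightOneSpectrum (𝓞 K))) (F H : K[X]) :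
    Prop :=
  ∀ v : HeightOneSpectrum (𝓞 K), v ∉ S → (∀ j, v.valuation K (H.coeff j) ≤ 1) ∧
    ((∀ j, v.valuation K (F.coeff j) ≤ 1) ∨ Dom (v.valuation K) F)

section main

variable {L : Type} [Field L] [NumberField L] [DecidableEq L] {D n : ℕ} {μ : L} {F H : L[X]}
  {S : Set (HeightOneSpectrum (𝓞 L))} {T : Finset L}

lemma comp_deg (_hF : 0 < F.natDegree) :
    (H.comp F).natDegree = F.natDegree * H.natDegree := by
  rw [natDegree_comp, Nat.mul_comm]

/-- two points which never meet, with equal factors at the good places -/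
lemma ratio2 (hdS : ∀ v ∉ S, v.valuation L (D : L) = 1 ∧ v.valuation L (F.natDegree : L) = 1 ∧
      v.valuation L (H.natDegree : L) = 1)
    (hT : Good S n T) (hμ : IsPrimitiveRoot μ D) (hF : F.Monic) (hH : H.Monic)
    (hd : 2 ≤ D * F.natDegree * H.natDegree)
    (hn : n ∣ D * F.natDegree * H.natDegree - 1) (hA : Adm2 S F H) {x y : L}
    (hx : PP (fs (H.comp F) D) x)
    (hy : PP (fs (H.comp F) D) y) (hNM : NM (fs (H.comp F) D) x y) (hy0 : y ≠ 0)
    (hgood : ∀ v : HeightOneSpectrum (𝓞 L), (∀ j, v.valuation L ((H.comp F).coeff j) ≤ 1) →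
      ∀ ζ : L, ζ ^ D = 1 → ζ ≠ 1 → v.valuation L (x - ζ * y) = 1) :
    x / y ∈ Rset L D n T := by
  refine ratio_mem hT ?_ hy0 ?_
  · intro h
    apply hNM 1
    show fs (H.comp F) D x = fs (H.comp F) D y
    unfold fs
    rw [h]
  intro v hv ζ₁ ζ₂ h₁ h₂ n₁ n₂
  obtain ⟨hHi, hi | hDom⟩ := hA v hv
  · have hi' := int_comp (v.valuation L) hi hHi
    refine ⟨1, ?_⟩
    rw [hgood v hi' ζ₁ h₁ n₁, hgood v hi' ζ₂ h₂ n₂, one_pow, mul_one]
  · obtain ⟨hvD, hve, hve2⟩ := hdS v hv
    obtain ⟨s1, s2⟩ := comp_inner (v.valuation L) hF hH hHi hd hDom hy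
    set σ := v.valuation L (F.eval (y ^ D)) with hσ
    obtain ⟨m₁, e₁⟩ := comp_factor (v.valuation L) hμ hF hH hHi hd hvD hve hve2 hDom hx hy s2
      hNM h₁
    obtain ⟨m₂, e₂⟩ := comp_factor (v.valuation L) hμ hF hH hHi hd hvD hve hve2 hDom hx hy s2
      hNM h₂
    obtain ⟨k, hk⟩ := hn
    exact Pool.Agent.Zk42.UC.bad_ratio (h := σ ^ k) (n := n) e₁ e₂
      (by rw [hk, ← pow_mul, Nat.mul_comm])
      (pow_ne_zero _ (ne_of_gt (lt_trans zero_lt_one s1)))

end main

/-- the finite set of ratios over an arbitrary number field -/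
theorem ratios2 {n D e₁ e₂ : ℕ} (hsel : SelN n) (hd : 2 ≤ D * e₁ * e₂) (hn : n ∣ D * e₁ * e₂ - 1)
    (hfin : ∀ (L : Type) [Field L] [NumberField L] (μ : L), IsPrimitiveRoot μ D → ∀ T : Finset L,
      (∀ t ∈ T, t ≠ 0) → (Rset L D n T).Finite)
    (K : Type) [Field K] [NumberField K] (S : Set (HeightOneSpectrum (𝓞 K))) (hS : S.Finite) :
    ∃ R : Finset K, (∀ ρ ∈ R, ρ ^ D ≠ 1) ∧ ∀ F H : K[X], F.Monic → H.Monic → F.natDegree = e₁ →
      H.natDegree = e₂ → Adm2 S F H →
      (∀ x y : K, Per (fs (H.comp F) D) x → Per (fs (H.comp F) D) y → x ≠ y → y ≠ 0 →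
        x / y ∈ R) ∧
      (∀ (x y w : K) (k : ℕ), PP (fs (H.comp F) D) x → Per (fs (H.comp F) D) y →
        Per (fs (H.comp F) D) w → 1 ≤ k →
        fs (H.comp F) D ((fs (H.comp F) D)^[k] x) = fs (H.comp F) D w →
        ¬ Per (fs (H.comp F) D) ((fs (H.comp F) D)^[k] x) →
        (fs (H.comp F) D)^[k] y ≠ w → y ≠ 0 → x / y ∈ R) := by
  classical
  have hN : 0 < D * e₁ := Nat.pos_of_ne_zero (by intro h; rw [h, zero_mul] at hd; omega)
  have he1 : 0 < e₁ := Nat.pos_of_ne_zero (by intro h; rw [h, mul_zero] at hN; omega)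
  have he2 : 0 < e₂ := Nat.pos_of_ne_zero (by intro h; rw [h, mul_zero] at hd; omega)
  have hD : 0 < D := Nat.pos_of_ne_zero (by intro h; rw [h, zero_mul] at hN; omega)
  have hne : NeZero D := ⟨hD.ne'⟩
  let L := CyclotomicField D K
  have hμ : IsPrimitiveRoot (IsCyclotomicExtension.zeta D K L) D :=
    IsCyclotomicExtension.zeta_spec D K L
  obtain ⟨SL, hSLfin, hout⟩ := places K L S hS (D * e₁ * e₂) (by positivity)
  obtain ⟨T, hT0, hT⟩ := hsel L SL hSLfin
  have hinj : Function.Injective (algebraMap K L) := (algebraMap K L).injective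
  have hone : ∀ (w : HeightOneSpectrum (𝓞 L)) (a b : ℕ),
      w.valuation L ((a * b : ℕ) : L) = 1 →
      w.valuation L ((a : ℕ) : L) = 1 ∧ w.valuation L ((b : ℕ) : L) = 1 := by
    intro w a b h1
    rw [Nat.cast_mul, map_mul] at h1
    have h2 : w.valuation L ((a : ℕ) : L) ≤ 1 := Pool.Agent.Zk42.UC.val_nat_le w a
    have h3 : w.valuation L ((b : ℕ) : L) ≤ 1 := Pool.Agent.Zk42.UC.val_nat_le w b
    constructor
    · refine le_antisymm h2 ?_
      rw [← h1]
      calc _ ≤ w.valuation L ((a : ℕ) : L) * 1 := by gcongr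
        _ = _ := mul_one _
    · refine le_antisymm h3 ?_
      rw [← h1]
      calc _ ≤ 1 * w.valuation L ((b : ℕ) : L) := by gcongr
        _ = _ := one_mul _
  have hdS : ∀ w ∉ SL, w.valuation L ((D : ℕ) : L) = 1 ∧ w.valuation L ((e₁ : ℕ) : L) = 1 ∧
      w.valuation L ((e₂ : ℕ) : L) = 1 := by
    intro w hw
    obtain ⟨h1, h2⟩ := hone w (D * e₁) e₂ (hout w hw).1
    obtain ⟨h3, h4⟩ := hone w D e₁ h1
    exact ⟨h3, h4, h2⟩
  have hRfin : ((algebraMap K L) ⁻¹' (Rset L D n T)).Finite :=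
    (hfin L _ hμ T hT0).preimage hinj.injOn
  refine ⟨hRfin.toFinset, ?_, ?_⟩
  · intro ρ hρ h1
    rw [Set.Finite.mem_toFinset] at hρ
    apply hρ.1
    rw [← map_pow, h1, map_one]
  intro F H hF hH hFe hHe hA
  have hF' : (F.map (algebraMap K L)).Monic := hF.map _
  have hH' : (H.map (algebraMap K L)).Monic := hH.map _
  have hdeg : (F.map (algebraMap K L)).natDegree = e₁ := by
    rw [natDegree_map, hFe]
  have hdegH : (H.map (algebraMap K L)).natDegree = e₂ := by
    rw [natDegree_map, hHe]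
  have hA' : Adm2 SL (F.map (algebraMap K L)) (H.map (algebraMap K L)) := by
    intro w hw
    obtain ⟨-, v, ε, hε, hvS, -, hval⟩ := hout w hw
    obtain ⟨hHi, hFi⟩ := hA v hvS
    refine ⟨fun j => by rw [coeff_map, hval]; exact _root_.pow_le_one' (hHi j) _, ?_⟩
    rcases hFi with hi | ⟨h1, h2⟩
    · left
      intro j
      rw [coeff_map, hval]
      exact _root_.pow_le_one' (hi j) _
    · right
      refine ⟨?_, ?_⟩
      · rw [coeff_map, hval]
        exact one_lt_pow₀ h1 hε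
      · intro j hj0 hj
        rw [hdeg] at hj ⊢
        rw [hFe] at h2
        rw [coeff_map, coeff_map, hval, hval, ← pow_mul, ← pow_mul, mul_comm ε, mul_comm ε,
          pow_mul, pow_mul]
        exact pow_lt_pow_left₀ (h2 j hj0 hj) zero_le hε
  have hdS' : ∀ w ∉ SL, w.valuation L ((D : ℕ) : L) = 1 ∧
      w.valuation L (((F.map (algebraMap K L)).natDegree : ℕ) : L) = 1 ∧
      w.valuation L (((H.map (algebraMap K L)).natDegree : ℕ) : L) = 1 := by
    rw [hdeg, hdegH]
    exact hdS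
  have hd' : 2 ≤ D * (F.map (algebraMap K L)).natDegree * (H.map (algebraMap K L)).natDegree := by
    rw [hdeg, hdegH]; exact hd
  have hn' : n ∣ D * (F.map (algebraMap K L)).natDegree * (H.map (algebraMap K L)).natDegree - 1 := by
    rw [hdeg, hdegH]; exact hn
  have hcomp : (H.comp F).map (algebraMap K L) =
      (H.map (algebraMap K L)).comp (F.map (algebraMap K L)) := Polynomial.map_comp _ _ _
  have hR' : ((H.map (algebraMap K L)).comp (F.map (algebraMap K L))).Monic :=
    hH'.comp hF' (by rw [hdeg]; exact he1.ne')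
  have hdR : 2 ≤ D * ((H.map (algebraMap K L)).comp (F.map (algebraMap K L))).natDegree := by
    rw [natDegree_comp, hdeg, hdegH, Nat.mul_comm e₂, ← Nat.mul_assoc]
    exact hd
  refine ⟨?_, ?_⟩
  · intro x y hx hy hxy hy0
    rw [Set.Finite.mem_toFinset, Set.mem_preimage, map_div₀]
    have hx' := Per_up (L := L) |>.2 hx
    have hy' := Per_up (L := L) |>.2 hy
    rw [hcomp] at hx' hy'
    have hxy' : algebraMap K L x ≠ algebraMap K L y := fun h => hxy (hinj h)
    exact ratio2 hdS' hT hμ hF' hH' hd' hn' hA' hx'.pp hy'.pp (per_NM hx' hy' hxy')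
      (fun h => hy0 ((map_eq_zero (algebraMap K L)).1 h))
      fun v hi => (good_per (v.valuation L) hμ hR' hi hdR hx' hy' hxy').2
  · intro x y w k hx hy hw hk h1 hnp h2 hy0
    rw [Set.Finite.mem_toFinset, Set.mem_preimage, map_div₀]
    have hx' := PP_up (L := L) hx
    have hy' := Per_up (L := L) |>.2 hy
    have hw' := Per_up (L := L) |>.2 hw
    have h1' : fs ((H.comp F).map (algebraMap K L)) D
        ((fs ((H.comp F).map (algebraMap K L)) D)^[k] (algebraMap K L x)) =
        fs ((H.comp F).map (algebraMap K L)) D (algebraMap K L w) := by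
      rw [← iter_up, ← fs_up, h1, fs_up]
    have hnp' : ¬ Per (fs ((H.comp F).map (algebraMap K L)) D)
        ((fs ((H.comp F).map (algebraMap K L)) D)^[k] (algebraMap K L x)) := by
      rw [← iter_up, Per_up]
      exact hnp
    have h2' : (fs ((H.comp F).map (algebraMap K L)) D)^[k] (algebraMap K L y) ≠
        algebraMap K L w := by
      rw [← iter_up]
      exact fun h => h2 (hinj h)
    rw [hcomp] at hx' hy' hw' h1' hnp' h2'
    exact ratio2 hdS' hT hμ hF' hH' hd' hn' hA' hx' hy'.pp (tail_NM hy' hw' h1' hnp' h2')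
      (fun h => hy0 ((map_eq_zero (algebraMap K L)).1 h))
      fun v hi ζ hζ _ => good_tail (v.valuation L) hμ hR' hi hdR hx' hy' hw' hk
        (fun h => hnp' (h ▸ hw')) h1' h2' hζ

section semi

/-! semiconjugate maps -/

variable {α : Type*} {g h : α → α}

lemma semi_iter (k : ℕ) (x : α) : (h ∘ g)^[k] (h x) = h ((g ∘ h)^[k] x) := by
  induction k generalizing x with
  | zero => rfl
  | succ k ih =>
    rw [Function.iterate_succ_apply, Function.iterate_succ_apply]
    show (h ∘ g)^[k] (h (g (h x))) = _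
    rw [ih (g (h x))]
    rfl

lemma semi_per {x : α} (hx : Per (g ∘ h) x) : Per (h ∘ g) (h x) := by
  obtain ⟨n, hn, he⟩ := hx
  exact ⟨n, hn, by rw [semi_iter, he]⟩

lemma semi_pp {x : α} (hx : PP (g ∘ h) x) : PP (h ∘ g) (h x) := by
  obtain ⟨m, n, hmn, he⟩ := hx
  exact ⟨m, n, hmn, by rw [semi_iter, semi_iter, he]⟩

lemma semi_inj {x y : α} (hx : Per (g ∘ h) x) (hy : Per (g ∘ h) y) (he : h x = h y) : x = y :=
  per_inj (k := 1) hx hy (congrArg g he)

lemma semi_fixed {x : α} (hx : (g ∘ h) x ≠ x) (hp : Per (g ∘ h) x) : (h ∘ g) (h x) ≠ h x := by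
  intro he
  apply hx
  exact semi_inj hp.map hp he

end semi

end Pool.Agent.Zk42.US
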